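import Mathlib

/-!
# Paths in Schreier graphs of a free group

`FreeGroup A` acts (on the left) on a set `V`.  Reading the letter `x` from the vertex `v` leads to
`step v x = (mk [x])⁻¹ • v`.  Unoriented edges are pairs `(a, v) : A × V`; such an edge goes from
`v` to `step v (a, true)`.
-/

namespace IM

open FreeGroup

variable {A V : Type*}

/-- The inverse letter. -/
def flip (x : A × Bool) : A × Bool := (x.1, !x.2)

@[simp] theorem flip_flip (x : A × Bool) : flip (flip x) = x := by
  simp [flip]

theorem flip_ne (x : A × Bool) : flip x ≠ x := by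
  rcases x with ⟨a, b⟩
  cases b <;> simp [flip]

@[simp] theorem flip_fst (x : A × Bool) : (flip x).1 = x.1 := rfl

@[simp] theorem flip_snd (x : A × Bool) : (flip x).2 = !x.2 := rfl

theorem mk_flip (x : A × Bool) : (FreeGroup.mk [flip x] : FreeGroup A) = (FreeGroup.mk [x])⁻¹ := by
  simp [FreeGroup.inv_mk, FreeGroup.invRev, flip]

theorem invRev_cons' (x : A × Bool) (u : List (A × Bool)) :
    FreeGroup.invRev (x :: u) = FreeGroup.invRev u ++ [flip x] := by
  simp [FreeGroup.invRev, flip]

theorem mk_cons (x : A × Bool) (u : List (A × Bool)) :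
    (FreeGroup.mk (x :: u) : FreeGroup A) = FreeGroup.mk [x] * FreeGroup.mk u := by
  rw [FreeGroup.mul_mk]; rfl

section act

variable [MulAction (FreeGroup A) V]

/-- The vertex reached from `v` by reading the letter `x`. -/
def step (v : V) (x : A × Bool) : V := (FreeGroup.mk [x])⁻¹ • v

/-- The endpoint of the path starting at `v` and reading the word `u`. -/
def endp (v : V) (u : List (A × Bool)) : V := (FreeGroup.mk u)⁻¹ • v

/-- The unoriented edge traversed when reading the letter `x` from `v`. -/
def edge (v : V) (x : A × Bool) : A × V := (x.1, if x.2 then v else step v x)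

/-- Target of an unoriented edge (its source is its second component). -/
def tgt (e : A × V) : V := step e.2 (e.1, true)

/-- All the edges of the path reading `u` from `v` belong to `E`. -/
def IsPath (E : Set (A × V)) : V → List (A × Bool) → Prop
  | _, [] => True
  | v, x :: u => edge v x ∈ E ∧ IsPath E (step v x) u

@[simp] theorem step_flip (v : V) (x : A × Bool) : step (step v x) (flip x) = v := by
  rw [step, step, mk_flip, inv_inv, smul_inv_smul]

theorem step_flip' (v : V) (x : A × Bool) : step (step v (flip x)) x = v := by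
  rw [step, step, mk_flip, inv_inv, inv_smul_smul]

@[simp] theorem edge_flip (v : V) (x : A × Bool) : edge (step v x) (flip x) = edge v x := by
  rcases x with ⟨a, b⟩
  cases b
  · simp [edge, flip]
  · have := step_flip v (a, true)
    simp only [flip, Bool.not_true] at this
    simp [edge, flip, this]

theorem edge_true (v : V) (a : A) : edge v (a, true) = (a, v) := by simp [edge]

theorem edge_false (v : V) (a : A) : edge v (a, false) = (a, step v (a, false)) := by simp [edge]

/-- source of the edge -/
theorem edge_snd_true (v : V) (x : A × Bool) (hx : x.2 = true) : (edge v x).2 = v := by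
  simp [edge, hx]

theorem edge_snd_false (v : V) (x : A × Bool) (hx : x.2 = false) : (edge v x).2 = step v x := by
  simp [edge, hx]

theorem tgt_edge_true (v : V) (x : A × Bool) (hx : x.2 = true) : tgt (edge v x) = step v x := by
  rcases x with ⟨a, b⟩
  simp only at hx
  subst hx
  simp [tgt, edge]

theorem tgt_edge_false (v : V) (x : A × Bool) (hx : x.2 = false) : tgt (edge v x) = v := by
  rcases x with ⟨a, b⟩
  simp only at hx
  subst hx
  have := step_flip v (a, false)
  simpa [tgt, edge, flip] using this

@[simp] theorem endp_nil (v : V) : endp v ([] : List (A × Bool)) = v := by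
  simp [endp, ← FreeGroup.one_eq_mk]

@[simp] theorem endp_cons (v : V) (x : A × Bool) (u : List (A × Bool)) :
    endp v (x :: u) = endp (step v x) u := by
  rw [endp, mk_cons, mul_inv_rev, mul_smul]; rfl

theorem endp_append (v : V) (u u' : List (A × Bool)) :
    endp v (u ++ u') = endp (endp v u) u' := by
  rw [endp, ← FreeGroup.mul_mk, mul_inv_rev, mul_smul]; rfl

theorem endp_invRev (v : V) (u : List (A × Bool)) :
    endp (endp v u) (FreeGroup.invRev u) = v := by
  rw [endp, endp, ← FreeGroup.inv_mk, inv_inv, smul_inv_smul]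

@[simp] theorem isPath_nil (E : Set (A × V)) (v : V) : IsPath E v [] := trivial

@[simp] theorem isPath_cons (E : Set (A × V)) (v : V) (x : A × Bool) (u : List (A × Bool)) :
    IsPath E v (x :: u) ↔ edge v x ∈ E ∧ IsPath E (step v x) u := Iff.rfl

theorem isPath_append (E : Set (A × V)) (v : V) (u u' : List (A × Bool)) :
    IsPath E v (u ++ u') ↔ IsPath E v u ∧ IsPath E (endp v u) u' := by
  induction u generalizing v with
  | nil => simp
  | cons x u ih => simp [ih, and_assoc]

theorem IsPath.mono {E E' : Set (A × V)} (h : E ⊆ E') {v : V} {u : List (A × Bool)}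
    (hu : IsPath E v u) : IsPath E' v u := by
  induction u generalizing v with
  | nil => trivial
  | cons x u ih => exact ⟨h hu.1, ih hu.2⟩

theorem IsPath.invRev {E : Set (A × V)} {v : V} {u : List (A × Bool)} (hu : IsPath E v u) :
    IsPath E (endp v u) (FreeGroup.invRev u) := by
  induction u generalizing v with
  | nil => simp
  | cons x u ih =>
    rw [invRev_cons', isPath_append, endp_cons, endp_invRev]
    refine ⟨ih hu.2, ?_, trivial⟩
    rw [edge_flip]
    exact hu.1

/-- `Conn E v g v'`: some path inside `E` from `v` to `v'` has label `g`. -/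
def Conn (E : Set (A × V)) (v : V) (g : FreeGroup A) (v' : V) : Prop :=
  ∃ u : List (A × Bool), FreeGroup.mk u = g ∧ IsPath E v u ∧ endp v u = v'

theorem Conn.refl (E : Set (A × V)) (v : V) : Conn E v 1 v :=
  ⟨[], FreeGroup.one_eq_mk.symm, trivial, endp_nil v⟩

theorem Conn.trans {E : Set (A × V)} {v v' v'' : V} {g g' : FreeGroup A}
    (h : Conn E v g v') (h' : Conn E v' g' v'') : Conn E v (g * g') v'' := by
  obtain ⟨u, rfl, hu, rfl⟩ := h
  obtain ⟨u', rfl, hu', rfl⟩ := h'
  exact ⟨u ++ u', by rw [FreeGroup.mul_mk], (isPath_append _ _ _ _).2 ⟨hu, hu'⟩, endp_append _ _ _⟩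

theorem Conn.symm {E : Set (A × V)} {v v' : V} {g : FreeGroup A}
    (h : Conn E v g v') : Conn E v' g⁻¹ v := by
  obtain ⟨u, rfl, hu, rfl⟩ := h
  exact ⟨FreeGroup.invRev u, FreeGroup.inv_mk.symm, hu.invRev, endp_invRev _ _⟩

theorem Conn.mono {E E' : Set (A × V)} (hE : E ⊆ E') {v v' : V} {g : FreeGroup A}
    (h : Conn E v g v') : Conn E' v g v' := by
  obtain ⟨u, rfl, hu, rfl⟩ := h
  exact ⟨u, rfl, hu.mono hE, rfl⟩

theorem Conn.eq {E : Set (A × V)} {v v' : V} {g : FreeGroup A}
    (h : Conn E v g v') : g⁻¹ • v = v' := by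
  obtain ⟨u, rfl, hu, rfl⟩ := h
  rfl

theorem Conn.of_edge {E : Set (A × V)} {v : V} {x : A × Bool} (h : edge v x ∈ E) :
    Conn E v (FreeGroup.mk [x]) (step v x) :=
  ⟨[x], rfl, ⟨h, trivial⟩, by simp⟩

/-! ### Weights -/

variable {G : Type*} [Group G]

/-- Weight of a path, for a `G`-valued weight on the (oriented) edges. -/
def wt (κ : A × V → G) : V → List (A × Bool) → G
  | _, [] => 1
  | v, x :: u => (if x.2 then κ (edge v x) else (κ (edge v x))⁻¹) * wt κ (step v x) u

@[simp] theorem wt_nil (κ : A × V → G) (v : V) : wt κ v [] = 1 := rfl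

theorem wt_cons (κ : A × V → G) (v : V) (x : A × Bool) (u : List (A × Bool)) :
    wt κ v (x :: u) = (if x.2 then κ (edge v x) else (κ (edge v x))⁻¹) * wt κ (step v x) u := rfl

theorem wt_append (κ : A × V → G) (v : V) (u u' : List (A × Bool)) :
    wt κ v (u ++ u') = wt κ v u * wt κ (endp v u) u' := by
  induction u generalizing v with
  | nil => simp
  | cons x u ih => simp [wt_cons, ih, mul_assoc]

theorem wt_step (κ : A × V → G) (v : V) {u u' : List (A × Bool)} (h : FreeGroup.Red.Step u u') :
    wt κ v u = wt κ v u' := by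
  cases h with
  | @not L₁ L₂ a b =>
    rw [wt_append, wt_append]
    congr 1
    rw [wt_cons, wt_cons]
    have h1 : step (step (endp v L₁) (a, b)) (a, !b) = endp v L₁ := step_flip (endp v L₁) (a, b)
    have h2 : edge (step (endp v L₁) (a, b)) (a, !b) = edge (endp v L₁) (a, b) :=
      edge_flip (endp v L₁) (a, b)
    rw [h1, h2]
    cases b <;> simp

theorem wt_red (κ : A × V → G) (v : V) {u u' : List (A × Bool)} (h : FreeGroup.Red u u') :
    wt κ v u = wt κ v u' := by
  induction h with
  | refl => rfl
  | tail _ h ih => rw [ih, wt_step κ v h]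

theorem wt_congr (κ : A × V → G) (v : V) {u u' : List (A × Bool)}
    (h : FreeGroup.mk u = FreeGroup.mk u') : wt κ v u = wt κ v u' := by
  obtain ⟨c, h1, h2⟩ := FreeGroup.Red.exact.1 h
  rw [wt_red κ v h1, wt_red κ v h2]

/-- The weight as a function on the free group. -/
noncomputable def wtF (κ : A × V → G) (v : V) (g : FreeGroup A) : G :=
  wt κ v (Quot.out g)

theorem mk_out (g : FreeGroup A) : FreeGroup.mk (Quot.out g) = g := Quot.out_eq g

theorem wtF_mk (κ : A × V → G) (v : V) (u : List (A × Bool)) :
    wtF κ v (FreeGroup.mk u) = wt κ v u :=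
  wt_congr κ v (mk_out _)

theorem wtF_one (κ : A × V → G) (v : V) : wtF κ v 1 = 1 := by
  rw [FreeGroup.one_eq_mk, wtF_mk]; rfl

theorem wtF_mul (κ : A × V → G) (v : V) (g h : FreeGroup A) :
    wtF κ v (g * h) = wtF κ v g * wtF κ (g⁻¹ • v) h := by
  conv_lhs => rw [← mk_out g, ← mk_out h, FreeGroup.mul_mk, wtF_mk, wt_append, endp, mk_out]
  rfl

theorem wtF_inv (κ : A × V → G) (v : V) (g : FreeGroup A) :
    wtF κ (g⁻¹ • v) g⁻¹ = (wtF κ v g)⁻¹ := by
  have := wtF_mul κ v g g⁻¹
  rw [mul_inv_cancel, wtF_one] at this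
  exact (inv_eq_of_mul_eq_one_right this.symm).symm

end act

end IM
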