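import Mathlib
import Pool.Agent.Helper23.IM.Path

/-!
# One-relator inverse monoids: definitions
-/

namespace IM

open FreeGroup

variable {A : Type*}

/-- Vagner's relations: `u u⁻¹ u = u` and `u u⁻¹ v v⁻¹ = v v⁻¹ u u⁻¹` for all words `u, v` over
`A ∪ A⁻¹` (the letter `(a, true)` is `a`, the letter `(a, false)` is `a⁻¹`). -/
inductive VagnerRel (A : Type*) : FreeMonoid (A × Bool) → FreeMonoid (A × Bool) → Prop
  | idem (u : List (A × Bool)) :
      VagnerRel A (FreeMonoid.ofList (u ++ FreeGroup.invRev u ++ u)) (FreeMonoid.ofList u)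
  | comm (u v : List (A × Bool)) :
      VagnerRel A
        (FreeMonoid.ofList (u ++ FreeGroup.invRev u ++ (v ++ FreeGroup.invRev v)))
        (FreeMonoid.ofList (v ++ FreeGroup.invRev v ++ (u ++ FreeGroup.invRev u)))

/-- The free inverse monoid on `A`: the quotient of the free monoid on `A ∪ A⁻¹` by the least
congruence containing Vagner's relations. -/
def FreeInverseMonoid (A : Type*) : Type _ := (conGen (VagnerRel A)).Quotient

instance : Monoid (FreeInverseMonoid A) :=
  inferInstanceAs (Monoid (conGen (VagnerRel A)).Quotient)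

/-- The class of a word in the free inverse monoid. -/
def FreeInverseMonoid.mk (u : List (A × Bool)) : FreeInverseMonoid A :=
  ((FreeMonoid.ofList u : FreeMonoid (A × Bool)) : (conGen (VagnerRel A)).Quotient)

/-- `Inv⟨A | w = 1⟩`: the quotient of the free inverse monoid on `A` by the least congruence
which identifies the class of the word `w` with the identity. -/
def OneRelInverseMonoid (w : List (A × Bool)) : Type _ :=
  (conGen fun x y : FreeInverseMonoid A => x = FreeInverseMonoid.mk w ∧ y = 1).Quotient

instance (w : List (A × Bool)) : Monoid (OneRelInverseMonoid w) :=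
  inferInstanceAs (Monoid
    (conGen fun x y : FreeInverseMonoid A => x = FreeInverseMonoid.mk w ∧ y = 1).Quotient)

/-- The class of the word `u` in `Inv⟨A | w = 1⟩`. -/
def cls (w u : List (A × Bool)) : OneRelInverseMonoid w :=
  ((FreeInverseMonoid.mk u : FreeInverseMonoid A) :
    (conGen fun x y : FreeInverseMonoid A => x = FreeInverseMonoid.mk w ∧ y = 1).Quotient)

/-- The words whose class in `Inv⟨A | w = 1⟩` is right invertible. -/
def RU (w : List (A × Bool)) : Set (List (A × Bool)) := {p | ∃ m, cls w p * m = 1}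

/-- The subgroup of the free group generated by the conjugates `p w p⁻¹`, for `p` a word whose class
is right invertible in `Inv⟨A | w = 1⟩`. -/
def Ninf (w : List (A × Bool)) : Subgroup (FreeGroup A) :=
  Subgroup.closure {g | ∃ p ∈ RU w, g = FreeGroup.mk p * FreeGroup.mk w * (FreeGroup.mk p)⁻¹}

/-! ### Data for the geometric part -/

/-- start height index of the (oriented by its letter) `i`-th edge of a cyclic word -/
def srcI {L : ℕ} (t : ZMod L → A × Bool) (i : ZMod L) : ZMod L := if (t i).2 then i else i + 1

/-- end height index of the `i`-th edge of a cyclic word -/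
def tgtI {L : ℕ} (t : ZMod L → A × Bool) (i : ZMod L) : ZMod L := if (t i).2 then i + 1 else i

section cx

variable {V : Type*} [MulAction (FreeGroup A) V]

/-- Labels of the closed paths at `v₀` inside `E`. -/
def FK (v₀ : V) (E : Set (A × V)) : Subgroup (FreeGroup A) where
  carrier := {g | Conn E v₀ g v₀}
  mul_mem' h h' := Conn.trans h h'
  one_mem' := Conn.refl E v₀
  inv_mem' h := Conn.symm h

/-- The subgroup generated by the `x τ^N x⁻¹`, for `x` the label of a path inside `E` from `v₀` to a
vertex of `C`. -/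
def NK (τ : FreeGroup A) (N : ℕ) (v₀ : V) (E : Set (A × V)) (C : Set V) :
    Subgroup (FreeGroup A) :=
  Subgroup.closure {g | ∃ x : FreeGroup A, ∃ v ∈ C, Conn E v₀ x v ∧ g = x * τ ^ N * x⁻¹}

/-- Good pairs `(E, C)` (subcomplexes). `tw` is the word `t`, `S` the allowed base labels, `ED` and
`FD` the basic edges and the basic subgroup, `T` the elements to be killed. -/
structure Good (v₀ : V) (tw : List (A × Bool)) (N : ℕ) (S : Set (FreeGroup A)) (ED : Set (A × V))
    (FD : Subgroup (FreeGroup A)) (T : Set (FreeGroup A)) (E : Set (A × V)) (C : Set V) : Prop where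
  sub : ED ⊆ E
  cyc : ∀ v ∈ C, endp v tw ∈ C
  path : ∀ v ∈ C, IsPath E v tw
  base : ∀ v ∈ C, ∃ x ∈ S, x⁻¹ • v₀ = v
  per : ∀ v ∈ C, (FreeGroup.mk tw ^ N)⁻¹ • v = v
  gen : FK v₀ E ≤ FD ⊔ NK (FreeGroup.mk tw) N v₀ E C
  kill : T ⊆ NK (FreeGroup.mk tw) N v₀ E C

end cx

end IM
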