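import Mathlib
import Pool.Agent.Helper23.IM.Path
import Pool.Agent.Helper23.IM.Defs

namespace IM

open FreeGroup

variable {A V : Type*}

/-- The word `t ^ N`. -/
def rep (N : ℕ) (tw : List (A × Bool)) : List (A × Bool) := (List.replicate N tw).flatten

@[simp] theorem rep_zero (tw : List (A × Bool)) : rep 0 tw = [] := rfl

theorem rep_succ (N : ℕ) (tw : List (A × Bool)) : rep (N + 1) tw = tw ++ rep N tw := by
  simp [rep, List.replicate_succ]

theorem mk_rep (N : ℕ) (tw : List (A × Bool)) :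
    (FreeGroup.mk (rep N tw) : FreeGroup A) = FreeGroup.mk tw ^ N := by
  induction N with
  | zero => simp [FreeGroup.one_eq_mk]
  | succ N ih => rw [rep_succ, ← FreeGroup.mul_mk, ih, pow_succ']

section

variable [MulAction (FreeGroup A) V]

theorem isPath_rep {E : Set (A × V)} {C : Set V} {tw : List (A × Bool)}
    (hcyc : ∀ v ∈ C, endp v tw ∈ C) (hpath : ∀ v ∈ C, IsPath E v tw) (N : ℕ) {v : V}
    (hv : v ∈ C) : IsPath E v (rep N tw) := by
  induction N generalizing v with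
  | zero => trivial
  | succ N ih =>
    rw [rep_succ, isPath_append]
    exact ⟨hpath v hv, ih (hcyc v hv)⟩

/-- The subgroup of the elements of the stabiliser of `v₀` whose weight belongs to `H`. -/
def wtSub {G : Type*} [Group G] (κ : A × V → G) (v₀ : V) (H : Subgroup G) :
    Subgroup (FreeGroup A) where
  carrier := {g | g⁻¹ • v₀ = v₀ ∧ wtF κ v₀ g ∈ H}
  mul_mem' {g h} hg hh := by
    refine ⟨by rw [mul_inv_rev, mul_smul, hg.1, hh.1], ?_⟩
    rw [wtF_mul, hg.1]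
    exact H.mul_mem hg.2 hh.2
  one_mem' := ⟨by simp, by rw [wtF_one]; exact H.one_mem⟩
  inv_mem' {g} hg := by
    have h1 : g⁻¹ • v₀ = v₀ := hg.1
    have h2 : g • v₀ = v₀ := by
      conv_lhs => rw [← h1]
      rw [smul_inv_smul]
    refine ⟨by rw [inv_inv]; exact h2, ?_⟩
    have := wtF_inv κ v₀ g
    rw [h1] at this
    rw [this]
    exact H.inv_mem hg.2

theorem mem_wtSub {G : Type*} [Group G] (κ : A × V → G) (v₀ : V) (H : Subgroup G)
    (g : FreeGroup A) : g ∈ wtSub κ v₀ H ↔ g⁻¹ • v₀ = v₀ ∧ wtF κ v₀ g ∈ H := Iff.rfl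

theorem wtF_conj {G : Type*} [Group G] (κ : A × V → G) (v₀ v : V) (x g : FreeGroup A)
    (hx : x⁻¹ • v₀ = v) (hg : g⁻¹ • v = v) :
    (x * g * x⁻¹)⁻¹ • v₀ = v₀ ∧
      wtF κ v₀ (x * g * x⁻¹) = wtF κ v₀ x * wtF κ v g * (wtF κ v₀ x)⁻¹ := by
  constructor
  · rw [mul_inv_rev, mul_inv_rev, inv_inv, mul_smul, mul_smul, hx, hg, ← hx, smul_inv_smul]
  · rw [wtF_mul, wtF_mul, hx, mul_inv_rev, mul_smul, hx, hg, ← wtF_inv, hx]

theorem wt_eq_mk {E' : Set (A × V)} {κ : A × V → FreeGroup A}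
    (hκ' : ∀ e ∈ E', κ e = FreeGroup.of e.1) {v : V} {u : List (A × Bool)} (hu : IsPath E' v u) :
    wt κ v u = FreeGroup.mk u := by
  induction u generalizing v with
  | nil => simp [FreeGroup.one_eq_mk]
  | cons x u ih =>
    rw [wt_cons, ih hu.2, mk_cons x u, hκ' _ hu.1]
    congr 1
    rcases x with ⟨a, b⟩
    cases b
    · have := mk_flip (a, true)
      simp only [flip, Bool.not_true] at this
      simp only [edge, this]
      rfl
    · rfl

theorem conn_wt {E E' : Set (A × V)} {v₀ : V} {ρ : V → V} {κ : A × V → FreeGroup A}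
    (hκ : ∀ e ∈ E, (∃ g, Conn E v₀ g e.2) → Conn E' (ρ e.2) (κ e) (ρ (tgt e)))
    {v : V} (hv : ∃ g, Conn E v₀ g v) {u : List (A × Bool)} (hu : IsPath E v u) :
    Conn E' (ρ v) (wt κ v u) (ρ (endp v u)) := by
  induction u generalizing v with
  | nil => simpa using Conn.refl E' (ρ v)
  | cons x u ih =>
    obtain ⟨g, hg⟩ := hv
    have hs : ∃ g, Conn E v₀ g (step v x) := ⟨_, hg.trans (Conn.of_edge hu.1)⟩
    rw [wt_cons, endp_cons]
    refine Conn.trans ?_ (ih hs hu.2)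
    by_cases hx : x.2 = true
    · have := hκ _ hu.1 (by rw [edge_snd_true v x hx]; exact ⟨g, hg⟩)
      rw [edge_snd_true v x hx, tgt_edge_true v x hx] at this
      rw [if_pos hx]
      exact this
    · have hx' : x.2 = false := by simpa using hx
      have := hκ _ hu.1 (by rw [edge_snd_false v x hx']; exact hs)
      rw [edge_snd_false v x hx', tgt_edge_false v x hx'] at this
      rw [if_neg hx]
      exact this.symm

theorem retract {v₀ : V} {tw : List (A × Bool)} {N : ℕ}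
    {S : Set (FreeGroup A)} {ED : Set (A × V)} {FD : Subgroup (FreeGroup A)}
    {T : Set (FreeGroup A)} {E : Set (A × V)} {C : Set V}
    (hG : Good v₀ tw N S ED FD T E C) (hFD : FD ≤ FK v₀ ED) (hT : T ⊆ FD)
    {E' : Set (A × V)} {C' : Set V} (hsub : ED ⊆ E') (hE' : E' ⊆ E) (hC' : C' ⊆ C)
    (hcyc : ∀ v ∈ C', endp v tw ∈ C') (hpath : ∀ v ∈ C', IsPath E' v tw)
    (ρ : V → V) (hρ : ρ v₀ = v₀) (κ : A × V → FreeGroup A)
    (hκ : ∀ e ∈ E, (∃ g, Conn E v₀ g e.2) → Conn E' (ρ e.2) (κ e) (ρ (tgt e)))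
    (hκ' : ∀ e ∈ E', κ e = FreeGroup.of e.1)
    (hcell : ∀ v ∈ C, (∃ g, Conn E v₀ g v) →
      wtF κ v (FreeGroup.mk tw ^ N) = 1 ∨ (v ∈ C' ∧ ρ v = v)) :
    Good v₀ tw N S ED FD T E' C' := by
  -- elements carried by `E'` are fixed
  have hfix : ∀ {v v' : V} {g : FreeGroup A}, Conn E' v g v' → wtF κ v g = g := by
    rintro v v' g ⟨u, rfl, hu, -⟩
    rw [wtF_mk, wt_eq_mk hκ' hu]
  have hNK : NK (FreeGroup.mk tw) N v₀ E C ≤
      wtSub κ v₀ (NK (FreeGroup.mk tw) N v₀ E' C') := by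
    refine (Subgroup.closure_le _).2 ?_
    rintro _ ⟨x, v, hv, hx, rfl⟩
    obtain ⟨h1, h2⟩ := wtF_conj κ v₀ v x (FreeGroup.mk tw ^ N) hx.eq (hG.per v hv)
    refine ⟨h1, ?_⟩
    rw [h2]
    rcases hcell v hv ⟨x, hx⟩ with h | ⟨hvC', hρv⟩
    · rw [h, mul_one, mul_inv_cancel]
      exact Subgroup.one_mem _
    · obtain ⟨u, rfl, hu, rfl⟩ := hx
      have h3 := conn_wt hκ ⟨1, Conn.refl E v₀⟩ hu
      rw [hρ, hρv, ← wtF_mk] at h3
      have h4 : wtF κ (endp v₀ u) (FreeGroup.mk tw ^ N) = FreeGroup.mk tw ^ N := by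
        rw [← mk_rep, wtF_mk, wt_eq_mk hκ' (isPath_rep hcyc hpath N hvC')]
      rw [h4]
      exact Subgroup.subset_closure ⟨_, _, hvC', h3, rfl⟩
  have hFDconn : ∀ g ∈ FD, Conn E' v₀ g v₀ := fun g hg => Conn.mono hsub (hFD hg)
  refine ⟨hsub, hcyc, hpath, fun v hv => hG.base v (hC' hv), fun v hv => hG.per v (hC' hv), ?_, ?_⟩
  · intro g hg
    have h1 : g ∈ FD ⊔ NK (FreeGroup.mk tw) N v₀ E C := hG.gen (Conn.mono hE' hg)
    have h2 : FD ⊔ NK (FreeGroup.mk tw) N v₀ E C ≤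
        wtSub κ v₀ (FD ⊔ NK (FreeGroup.mk tw) N v₀ E' C') := by
      refine sup_le ?_ ?_
      · intro g hg
        refine ⟨(hFDconn g hg).eq, ?_⟩
        rw [hfix (hFDconn g hg)]
        exact Subgroup.mem_sup_left hg
      · refine hNK.trans ?_
        rintro g ⟨h1, h2⟩
        exact ⟨h1, Subgroup.mem_sup_right h2⟩
    have h3 := (h2 h1).2
    rwa [hfix hg] at h3
  · intro g hg
    have h3 := (hNK (hG.kill hg)).2
    rwa [hfix (hFDconn g (hT hg))] at h3

end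

end IM
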