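import Mathlib
import Pool.Agent.Helper23.IM.Path
import Pool.Agent.Helper23.IM.Defs
import Pool.Agent.Helper23.IM.Retract
import Pool.Agent.Helper33.IM.Stacking
import Pool.Agent.Helper19.IM.CT
import Pool.Agent.Helper64.IM.LA
import Pool.Agent.Helper12.IM.B0
import Pool.Agent.Helper5.IM.RemoveOnce

namespace IM

open FreeGroup

variable {A V : Type*}

/-! ### Orbit representatives -/

theorem exists_orbit_reps {X : Type*} [Fintype X] (σ : X → X) (N : ℕ)
    (hσ : ∀ x, σ^[N] x = x) (hfree : ∀ x, ∀ j, 0 < j → j < N → σ^[j] x ≠ x) :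
    ∃ R : Finset X, N * R.card ≤ Fintype.card X ∧ ∀ x, ∃ r ∈ R, ∃ j, σ^[j] r = x := by
  classical
  let P : Finset X → Prop := fun R =>
    ∀ r ∈ R, ∀ r' ∈ R, ∀ j < N, ∀ k < N, σ^[j] r = σ^[k] r' → r = r' ∧ j = k
  have hP0 : P ∅ := by intro r hr; simp at hr
  obtain ⟨R, hR, hmax⟩ := Finset.exists_max_image
    ((Finset.univ : Finset (Finset X)).filter P) Finset.card ⟨∅, by simp [hP0]⟩
  simp only [Finset.mem_filter, Finset.mem_univ, true_and] at hR hmax
  refine ⟨R, ?_, ?_⟩
  · have : Function.Injective (fun p : Fin N × R => σ^[p.1] (p.2 : X)) := by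
      rintro ⟨j, r⟩ ⟨k, r'⟩ h
      obtain ⟨h1, h2⟩ := hR r r.2 r' r'.2 j j.2 k k.2 h
      exact Prod.ext (Fin.ext h2) (Subtype.ext h1)
    have := Fintype.card_le_of_injective _ this
    simpa using this
  · intro x
    by_contra hx
    push Not at hx
    have hmod : ∀ (y : X) (j : ℕ), σ^[j] y = σ^[j % N] y := by
      intro y j
      conv_lhs => rw [← Nat.mod_add_div j N, Function.iterate_add_apply]
      congr 1
      generalize j / N = q
      induction q with
      | zero => simp
      | succ q ih => rw [Nat.mul_succ, Function.iterate_add_apply, hσ, ih]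
    have hback : ∀ (y z : X) (j k : ℕ), j < N → σ^[j] y = σ^[k] z → y = σ^[N - j + k] z := by
      intro y z j k hj h
      rw [Function.iterate_add_apply, ← h, ← Function.iterate_add_apply, Nat.sub_add_cancel hj.le,
        hσ]
    have hxR : x ∉ R := fun h => hx x h 0 rfl
    have : P (insert x R) := by
      intro r hr r' hr' j hj k hk h
      rcases Finset.mem_insert.1 hr with hrx | hr
      · rcases Finset.mem_insert.1 hr' with hrx' | hr'
        · refine ⟨hrx.trans hrx'.symm, ?_⟩
          rw [hrx, hrx'] at h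
          by_contra hjk
          rcases lt_or_gt_of_ne hjk with hlt | hlt
          · have h1 := hback x x j k hj h
            rw [show N - j + k = N + (k - j) by omega, Function.iterate_add_apply, hσ] at h1
            exact hfree x (k - j) (by omega) (by omega) h1.symm
          · have h1 := hback x x k j hk h.symm
            rw [show N - k + j = N + (j - k) by omega, Function.iterate_add_apply, hσ] at h1
            exact hfree x (j - k) (by omega) (by omega) h1.symm
        · rw [hrx] at h
          exact absurd (hback x r' j k hj h).symm (hx r' hr' _)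
      · rcases Finset.mem_insert.1 hr' with hrx' | hr'
        · rw [hrx'] at h
          exact absurd (hback x r k j hk h.symm).symm (hx r hr _)
        · exact hR r hr r' hr' j hj k hk h
    have := hmax _ this
    rw [Finset.card_insert_of_notMem hxR] at this
    omega

section

variable [MulAction (FreeGroup A) V]

/-- List of the edges of a path. -/
def edgeList : V → List (A × Bool) → List (A × V)
  | _, [] => []
  | v, x :: u => edge v x :: edgeList (step v x) u

theorem length_edgeList (v : V) (u : List (A × Bool)) : (edgeList v u).length = u.length := by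
  induction u generalizing v with
  | nil => rfl
  | cons x u ih => simp [edgeList, ih]

theorem isPath_iff_edgeList (E : Set (A × V)) (v : V) (u : List (A × Bool)) :
    IsPath E v u ↔ ∀ e ∈ edgeList v u, e ∈ E := by
  induction u generalizing v with
  | nil => simp [edgeList]
  | cons x u ih => simp [edgeList, ih]

theorem isPath_iff_get (E : Set (A × V)) (v : V) (u : List (A × Bool)) :
    IsPath E v u ↔ ∀ (i : ℕ) (hi : i < u.length), edge (endp v (u.take i)) u[i] ∈ E := by
  induction u generalizing v with
  | nil => simp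
  | cons x u ih =>
    rw [isPath_cons, ih]
    constructor
    · rintro ⟨h1, h2⟩ i hi
      cases i with
      | zero => simpa using h1
      | succ i => simpa using h2 i (by simpa using hi)
    · intro h
      refine ⟨?_, fun i hi => ?_⟩
      · have := h 0 (by simp)
        rw [List.take_zero, endp_nil] at this
        exact this
      · have := h (i + 1) (by simpa using hi)
        rw [List.take_succ_cons, endp_cons] at this
        exact this

/-- Reachability is inherited along paths. -/
theorem isPath_reach {E : Set (A × V)} {v₀ v : V} (hv : ∃ g, Conn E v₀ g v)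
    {u : List (A × Bool)} (hu : IsPath E v u) :
    IsPath {e ∈ E | ∃ g, Conn E v₀ g e.2} v u := by
  induction u generalizing v with
  | nil => trivial
  | cons x u ih =>
    obtain ⟨g, hg⟩ := hv
    have hs : ∃ g, Conn E v₀ g (step v x) := ⟨_, hg.trans (Conn.of_edge hu.1)⟩
    refine ⟨⟨hu.1, ?_⟩, ih hs hu.2⟩
    by_cases hx : x.2 = true
    · rw [edge_snd_true v x hx]; exact ⟨g, hg⟩
    · rw [edge_snd_false v x (by simpa using hx)]; exact hs

theorem good_reach {v₀ : V} {tw : List (A × Bool)} {N : ℕ}
    {S : Set (FreeGroup A)} {ED : Set (A × V)} {FD : Subgroup (FreeGroup A)}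
    {T : Set (FreeGroup A)} {E : Set (A × V)} {C : Set V}
    (hG : Good v₀ tw N S ED FD T E C) (hFD : FD ≤ FK v₀ ED) (hT : T ⊆ FD)
    (hED : ∀ e ∈ ED, ∃ g, Conn ED v₀ g e.2) :
    Good v₀ tw N S ED FD T {e ∈ E | ∃ g, Conn E v₀ g e.2} {v ∈ C | ∃ g, Conn E v₀ g v} := by
  refine retract hG hFD hT ?_ (fun e he => he.1) (fun v hv => hv.1) ?_ ?_ id rfl
    (fun e => FreeGroup.of e.1) ?_ (fun _ _ => rfl) ?_
  · intro e he
    obtain ⟨g, hg⟩ := hED e he
    exact ⟨hG.sub he, g, hg.mono hG.sub⟩
  · rintro v ⟨hv, g, hg⟩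
    exact ⟨hG.cyc v hv, _, hg.trans ⟨tw, rfl, hG.path v hv, rfl⟩⟩
  · rintro v ⟨hv, hg⟩
    exact isPath_reach hg (hG.path v hv)
  · rintro ⟨a, v⟩ he hg
    have : edge v (a, true) ∈ {e ∈ E | ∃ g, Conn E v₀ g e.2} := by
      rw [edge_true]; exact ⟨he, hg⟩
    exact Conn.of_edge this
  · intro v hv hg
    exact Or.inr ⟨⟨hv, hg⟩, rfl⟩


/-! ### The counting lemma for complexes -/

/-- The letters of a nonempty word, cyclically indexed. -/
def cycLetter (tw : List (A × Bool)) [NeZero tw.length] (i : ZMod tw.length) : A × Bool :=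
  tw[i.val]'(ZMod.val_lt i)

theorem cycLetter_red {tw : List (A × Bool)} [NeZero tw.length]
    (hred : FreeGroup.IsCyclicallyReduced tw) (i : ZMod tw.length) :
    cycLetter tw (i + 1) ≠ flip (cycLetter tw i) := by
  have hi := ZMod.val_lt i
  intro h
  by_cases hlast : i.val + 1 = tw.length
  · have h0 : i + 1 = 0 := by
      have : ((i.val + 1 : ℕ) : ZMod tw.length) = 0 := by rw [hlast]; simp
      simpa using this
    have h1 : cycLetter tw (i + 1) = tw[0]'(by omega) := by
      rw [h0]; simp [cycLetter]
    have hne : tw ≠ [] := by rintro rfl; simp at hi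
    have h2 := hred.2 (tw.getLast hne) (List.getLast_mem_getLast? hne) (tw.head hne)
      (List.head_mem_head? hne)
    have h3 : cycLetter tw i = tw.getLast hne := by
      rw [List.getLast_eq_getElem]
      simp only [cycLetter]
      congr 1
      omega
    have h4 : cycLetter tw (i + 1) = tw.head hne := by
      rw [h1, List.head_eq_getElem]
    rw [← h3, ← h4, h] at h2
    have := h2 rfl
    rw [flip_snd] at this
    exact absurd this.symm (by simp)
  · have hlt : i.val + 1 < tw.length := by omega
    have h1 : (i + 1).val = i.val + 1 := by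
      have hL : 1 < tw.length := by omega
      have : Fact (1 < tw.length) := ⟨hL⟩
      rw [ZMod.val_add, ZMod.val_one, Nat.mod_eq_of_lt hlt]
    have h2 := hred.1
    rw [FreeGroup.IsReduced, List.isChain_iff_getElem] at h2
    have h3 := h2 i.val hlt
    simp only [cycLetter, h1] at h
    rw [h] at h3
    have := h3 rfl
    rw [flip_snd] at this
    exact absurd this (by simp)

theorem cycLetter_per {tw : List (A × Bool)} [NeZero tw.length]
    (hper : ∀ k, 0 < k → k < tw.length → tw.rotate k ≠ tw) (k : ZMod tw.length) (hk : k ≠ 0) :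
    ∃ i, cycLetter tw (i + k) ≠ cycLetter tw i := by
  by_contra hcon
  push Not at hcon
  refine hper k.val (Nat.pos_of_ne_zero (by simpa using hk)) (ZMod.val_lt k) ?_
  refine List.ext_getElem (by simp) ?_
  intro n h1 h2
  rw [List.getElem_rotate]
  have := hcon (n : ZMod tw.length)
  simp only [cycLetter] at this
  have h3 : ((n : ZMod tw.length) + k).val = (n + k.val) % tw.length := by
    rw [ZMod.val_add, ZMod.val_natCast, Nat.mod_add_mod]
  have h4 : ((n : ZMod tw.length)).val = n := by
    rw [ZMod.val_natCast, Nat.mod_eq_of_lt h2]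
  simp only [h3, h4] at this
  exact this

theorem counting_complex {tw : List (A × Bool)} (hne : tw ≠ [])
    (hred : FreeGroup.IsCyclicallyReduced tw)
    (hper : ∀ k, 0 < k → k < tw.length → tw.rotate k ≠ tw) (C : Finset V)
    (hcyc : ∀ v ∈ C, endp v tw ∈ C) :
    ∃ (cov : A × V → ℕ) (P : Finset V) (I : Finset (A × V)),
      (∀ e, cov e = 0 → ∀ v ∈ C, ∀ (i : ℕ) (hi : i < tw.length),
        edge (endp v (tw.take i)) tw[i] ≠ e) ∧
      (∀ e, cov e = 1 → ∃ v ∈ C, ∃ (i : ℕ) (hi : i < tw.length),
        edge (endp v (tw.take i)) tw[i] = e ∧ ∀ v' ∈ C, ∀ (j : ℕ) (hj : j < tw.length),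
          edge (endp v' (tw.take j)) tw[j] = e → v' = v ∧ j = i) ∧
      (∀ e ∈ I, ∃ v ∈ C, ∃ (i : ℕ) (hi : i < tw.length), edge (endp v (tw.take i)) tw[i] = e) ∧
      (∀ e, e ∉ I → cov e = 0) ∧
      (∀ e ∈ I, e.2 ∈ P ∧ tgt e ∈ P) ∧
      C.card + P.card ≤ I.card + (I.filter fun e => cov e = 1).card ∧
      ∑ e ∈ I, cov e = tw.length * C.card := by
  classical
  have : NeZero tw.length := ⟨by simpa using hne⟩
  obtain ⟨h, hinj, hst⟩ := stacking (cycLetter tw) (cycLetter_red hred) (cycLetter_per hper)
  let X := C × ZMod tw.length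
  let s : X → X := fun x => if x.2.val + 1 = tw.length then
    (⟨endp x.1.1 tw, hcyc _ x.1.2⟩, 0) else (x.1, x.2 + 1)
  have hval : ∀ i : ZMod tw.length, i.val + 1 < tw.length → (i + 1).val = i.val + 1 := by
    intro i hlt
    have : Fact (1 < tw.length) := ⟨by omega⟩
    rw [ZMod.val_add, ZMod.val_one, Nat.mod_eq_of_lt hlt]
  have hzero : ∀ i : ZMod tw.length, i.val + 1 = tw.length → i + 1 = 0 := by
    intro i hi
    have : ((i.val + 1 : ℕ) : ZMod tw.length) = 0 := by rw [hi]; simp
    simpa using this
  let pos : X → V := fun x => endp x.1.1 (tw.take x.2.val)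
  let idx : X → ZMod tw.length := fun x => x.2
  let ed : X → A × V := fun x => edge (pos x) (cycLetter tw (idx x))
  have hidx : ∀ x, idx (s x) = idx x + 1 := by
    intro x
    by_cases hx : x.2.val + 1 = tw.length
    · simp only [idx, s, if_pos hx]
      exact (hzero _ hx).symm
    · simp only [idx, s, if_neg hx]
  have hposs : ∀ x, pos (s x) = step (pos x) (cycLetter tw (idx x)) := by
    intro x
    have hlt := ZMod.val_lt x.2
    have key : endp x.1.1 (tw.take (x.2.val + 1)) = step (pos x) (cycLetter tw (idx x)) := by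
      rw [List.take_succ_eq_append_getElem hlt, endp_append]
      simp [pos, idx, cycLetter]
    by_cases hx : x.2.val + 1 = tw.length
    · simp only [pos, s, if_pos hx]
      rw [hx, List.take_length] at key
      simpa using key
    · simp only [pos, s, if_neg hx]
      rw [hval x.2 (by omega)]
      exact key
  have hsinj : Function.Injective s := by
    rintro ⟨v, i⟩ ⟨v', i'⟩ hx
    have hii : i = i' := by
      have := congrArg idx hx
      rw [hidx, hidx] at this
      exact add_right_cancel this
    subst hii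
    have hp := congrArg pos hx
    rw [hposs, hposs] at hp
    have h2 : (v : V) = v' := by
      simpa [step, pos, endp, idx] using hp
    exact Prod.ext (Subtype.ext h2) rfl
  have hpos : ∀ x y, pos x = pos y → idx x = idx y → x = y := by
    rintro ⟨v, i⟩ ⟨v', i'⟩ hp hi
    simp only [idx] at hi
    subst hi
    have h2 : (v : V) = v' := by
      simpa [pos, endp] using hp
    exact Prod.ext (Subtype.ext h2) rfl
  have hsrc : ∀ x, (ed x).2 = if (cycLetter tw (idx x)).2 then pos x else pos (s x) := by
    intro x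
    rw [hposs]; rfl
  have htgt : ∀ x, tgt (ed x) = if (cycLetter tw (idx x)).2 then pos (s x) else pos x := by
    intro x
    by_cases hx : (cycLetter tw (idx x)).2 = true
    · rw [if_pos hx, hposs]; exact tgt_edge_true _ _ hx
    · rw [if_neg hx]; exact tgt_edge_false _ _ (by simpa using hx)
  have hcount := counting (cycLetter tw) (cycLetter_red hred) h hinj hst s hsinj idx hidx pos hpos ed
    Prod.snd tgt Prod.fst (fun x => rfl) hsrc htgt
  have hC0 : (Finset.univ.filter fun x : X => idx x = 0).card = C.card := by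
    rw [← Fintype.card_coe C]
    refine (Finset.card_bij (fun (v : C) _ => ((v, 0) : X)) ?_ ?_ ?_).symm
    · intro v _; simp [idx]
    · intro v _ v' _ hv; exact (Prod.ext_iff.1 hv).1
    · rintro ⟨v, i⟩ hx
      simp only [idx, Finset.mem_filter, Finset.mem_univ, true_and] at hx
      subst hx
      exact ⟨v, Finset.mem_univ _, rfl⟩
  have hx : ∀ (v : V) (hv : v ∈ C) (i : ℕ) (hi : i < tw.length),
      ed (⟨v, hv⟩, (i : ZMod tw.length)) = edge (endp v (tw.take i)) tw[i] := by
    intro v hv i hi
    have hv' : (i : ZMod tw.length).val = i := by rw [ZMod.val_natCast, Nat.mod_eq_of_lt hi]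
    simp only [ed, pos, idx, cycLetter, hv']
  have hx' : ∀ x : X, ed x = edge (endp x.1.1 (tw.take x.2.val)) (tw[x.2.val]'(ZMod.val_lt x.2)) :=
    fun x => rfl
  refine ⟨fun e => (Finset.univ.filter fun x => ed x = e).card, Finset.univ.image pos,
    Finset.univ.image ed, ?_, ?_, ?_, ?_, ?_, ?_, ?_⟩
  · intro e he v hv i hi heq
    rw [Finset.card_eq_zero] at he
    have : (⟨v, hv⟩, (i : ZMod tw.length)) ∈ Finset.univ.filter fun x : X => ed x = e := by
      simp [hx v hv i hi, heq]
    rw [he] at this
    simp at this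
  · intro e he
    obtain ⟨x, hxe⟩ := Finset.card_eq_one.1 he
    have hxm : x ∈ Finset.univ.filter fun x : X => ed x = e := by rw [hxe]; simp
    have hxe' : ed x = e := by simpa using hxm
    refine ⟨x.1.1, x.1.2, x.2.val, ZMod.val_lt x.2, (hx' x).symm.trans hxe', ?_⟩
    intro v' hv' j hj heq
    have : (⟨v', hv'⟩, (j : ZMod tw.length)) ∈ Finset.univ.filter fun x : X => ed x = e := by
      simp [hx v' hv' j hj, heq]
    rw [hxe, Finset.mem_singleton] at this
    subst this
    exact ⟨rfl, by rw [ZMod.val_natCast, Nat.mod_eq_of_lt hj]⟩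
  · intro e he
    obtain ⟨x, -, rfl⟩ := Finset.mem_image.1 he
    exact ⟨x.1.1, x.1.2, x.2.val, ZMod.val_lt x.2, (hx' x).symm⟩
  · intro e he
    simp only
    rw [Finset.card_eq_zero, Finset.filter_eq_empty_iff]
    intro x _ hxe
    exact he (Finset.mem_image.2 ⟨x, Finset.mem_univ _, hxe⟩)
  · intro e he
    obtain ⟨x, -, rfl⟩ := Finset.mem_image.1 he
    rw [hsrc, htgt]
    split_ifs
    · exact ⟨Finset.mem_image_of_mem _ (Finset.mem_univ _),
        Finset.mem_image_of_mem _ (Finset.mem_univ _)⟩
    · exact ⟨Finset.mem_image_of_mem _ (Finset.mem_univ _),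
        Finset.mem_image_of_mem _ (Finset.mem_univ _)⟩
  · rw [← hC0]
    exact hcount
  · have h1 := Finset.card_eq_sum_card_image ed (Finset.univ : Finset X)
    rw [← h1, Finset.card_univ, Fintype.card_prod, ZMod.card, Fintype.card_coe, mul_comm]


/-! ### The basic edges -/

open Classical in
/-- The edges of the closed paths `us j` at `v₀`. -/
noncomputable def EDof (v₀ : V) {r : ℕ} (us : Fin r → List (A × Bool)) : Finset (A × V) :=
  Finset.univ.biUnion fun j => (edgeList v₀ (us j)).toFinset

theorem mem_EDof {v₀ : V} {r : ℕ} {us : Fin r → List (A × Bool)} {e : A × V} :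
    e ∈ EDof v₀ us ↔ ∃ j, e ∈ edgeList v₀ (us j) := by
  simp [EDof]

theorem card_EDof_le (v₀ : V) {r : ℕ} (us : Fin r → List (A × Bool)) :
    (EDof v₀ us).card ≤ ∑ j, (us j).length := by
  classical
  refine (Finset.card_biUnion_le).trans (Finset.sum_le_sum fun j _ => ?_)
  exact (List.toFinset_card_le _).trans (length_edgeList _ _).le

theorem isPath_EDof (v₀ : V) {r : ℕ} (us : Fin r → List (A × Bool)) (j : Fin r) :
    IsPath (EDof v₀ us : Set (A × V)) v₀ (us j) := by
  rw [isPath_iff_edgeList]
  intro e he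
  exact Finset.mem_coe.2 (mem_EDof.2 ⟨j, he⟩)

theorem reach_EDof (v₀ : V) {r : ℕ} (us : Fin r → List (A × Bool)) (e : A × V)
    (he : e ∈ (EDof v₀ us : Set (A × V))) :
    ∃ g, Conn (EDof v₀ us : Set (A × V)) v₀ g e.2 := by
  obtain ⟨j, hj⟩ := mem_EDof.1 (Finset.mem_coe.1 he)
  have h1 := isPath_reach ⟨1, Conn.refl _ v₀⟩ (isPath_EDof v₀ us j)
  rw [isPath_iff_edgeList] at h1
  exact (h1 e hj).2

theorem closure_le_FK (v₀ : V) {r : ℕ} (us : Fin r → List (A × Bool))
    (hus : ∀ j, endp v₀ (us j) = v₀) :
    Subgroup.closure (Set.range fun j => FreeGroup.mk (us j)) ≤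
      FK v₀ (EDof v₀ us : Set (A × V)) := by
  rw [Subgroup.closure_le]
  rintro _ ⟨j, rfl⟩
  exact ⟨us j, rfl, isPath_EDof v₀ us j, hus j⟩

/-! ### Small complexes -/

theorem exists_small {v₀ : V} {tw : List (A × Bool)} (hne : tw ≠ [])
    (hred : FreeGroup.IsCyclicallyReduced tw)
    (hper : ∀ k, 0 < k → k < tw.length → tw.rotate k ≠ tw)
    {N : ℕ} (hN : 2 ≤ N) {S : Set (FreeGroup A)} {r : ℕ} (us : Fin r → List (A × Bool))
    (hus : ∀ j, endp v₀ (us j) = v₀) {T : Set (FreeGroup A)}
    (hT : T ⊆ Subgroup.closure (Set.range fun j => FreeGroup.mk (us j)))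
    (hord : ∀ v, (∃ x ∈ S, x⁻¹ • v₀ = v) → ∀ j, 0 < j → j < N →
      (FreeGroup.mk tw ^ j)⁻¹ • v ≠ v)
    (E₀ : Finset (A × V)) (C₀ : Finset V)
    (h₀ : Good v₀ tw N S (EDof v₀ us) (Subgroup.closure (Set.range fun j => FreeGroup.mk (us j)))
      T E₀ C₀) :
    ∃ (E : Finset (A × V)) (C : Finset V),
      Good v₀ tw N S (EDof v₀ us) (Subgroup.closure (Set.range fun j => FreeGroup.mk (us j)))
        T E C ∧
      E.card ≤ (∑ j, (us j).length) +
        tw.length * (r + 1 + 3 * ∑ j, (us j).length) := by
  classical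
  set FD : Subgroup (FreeGroup A) := Subgroup.closure (Set.range fun j => FreeGroup.mk (us j))
    with hFDdef
  have hFD : FD ≤ FK v₀ (EDof v₀ us : Set (A × V)) := closure_le_FK v₀ us hus
  -- minimal pair
  let Pr : ℕ → Prop := fun n => ∃ (E : Finset (A × V)) (C : Finset V),
    Good v₀ tw N S (EDof v₀ us) FD T E C ∧ E.card + C.card = n
  have hex : ∃ n, Pr n := ⟨_, E₀, C₀, h₀, rfl⟩
  obtain ⟨E, C, hG, hcard⟩ := Nat.find_spec hex
  have hmin : ∀ (E' : Set (A × V)) (C' : Set V), E' ⊆ (E : Set (A × V)) → C' ⊆ (C : Set V) →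
      Good v₀ tw N S (EDof v₀ us) FD T E' C' → E' = E ∧ C' = C := by
    intro E' C' hE' hC' hG'
    have hfE : E'.Finite := E.finite_toSet.subset hE'
    have hfC : C'.Finite := C.finite_toSet.subset hC'
    lift E' to Finset (A × V) using hfE
    lift C' to Finset V using hfC
    have h1 : Nat.find hex ≤ E'.card + C'.card := Nat.find_le ⟨E', C', hG', rfl⟩
    have h2 : E' ⊆ E := by exact_mod_cast hE'
    have h3 : C' ⊆ C := by exact_mod_cast hC'
    have h4 := Finset.card_le_card h2
    have h5 := Finset.card_le_card h3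
    have h6 : E' = E := Finset.eq_of_subset_of_card_le h2 (by omega)
    have h7 : C' = C := Finset.eq_of_subset_of_card_le h3 (by omega)
    exact ⟨by rw [h6], by rw [h7]⟩
  -- everything is reachable
  have hreach' := hmin _ _ (fun e he => he.1) (fun v hv => hv.1)
    (good_reach hG hFD hT (reach_EDof v₀ us))
  have hreachE : ∀ e ∈ (E : Set (A × V)), ∃ g, Conn (E : Set (A × V)) v₀ g e.2 := by
    intro e he
    rw [← hreach'.1] at he
    exact he.2
  have hreachC : ∀ v ∈ (C : Set V), ∃ g, Conn (E : Set (A × V)) v₀ g v := by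
    intro v hv
    rw [← hreach'.2] at hv
    exact hv.2
  obtain ⟨cov, P, I, hcov0, hcov1, hI, hI', hIP, hcount, hsum⟩ :=
    counting_complex hne hred hper C (fun v hv => hG.cyc v hv)
  have hIE : I ⊆ E := by
    intro e he
    obtain ⟨v, hv, i, hi, rfl⟩ := hI e he
    exact (isPath_iff_get _ _ _).1 (hG.path v hv) i hi
  -- coverage
  have hcov : ∀ e ∈ E, e ∉ EDof v₀ us → 2 ≤ cov e := by
    intro e he heD
    by_contra hlt
    have hcase : cov e = 0 ∨ cov e = 1 := by omega
    rcases hcase with h0 | h1
    · obtain ⟨E', C', hE', hC', hG'⟩ := remove_uncovered hG hFD hT hreachE (reach_EDof v₀ us) e he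
        (by simpa using heD) (by
          intro v hv
          rw [isPath_iff_get]
          intro i hi
          exact ⟨(isPath_iff_get _ _ _).1 (hG.path v hv) i hi, hcov0 e h0 v hv i hi⟩)
      have := (hmin E' C' (fun x hx => (hE' hx).1) hC' hG').1
      have h3 : e ∈ E' := by rw [this]; exact he
      exact (hE' h3).2 rfl
    · obtain ⟨v, hv, i, hi, heq, huniq⟩ := hcov1 e h1
      obtain ⟨E', C', hE', hC', hG'⟩ := remove_once hG hFD hT (by omega)
        (fun v hv => hord v (hG.base v hv)) e he (by simpa using heD) v hv i hi heq huniq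
      have := (hmin E' C' (fun x hx => (hE' hx).1) hC' hG').1
      have h3 : e ∈ E' := by rw [this]; exact he
      exact (hE' h3).2 rfl
  -- orbit representatives
  let σ : C → C := fun v => ⟨endp v.1 tw, hG.cyc v.1 v.2⟩
  have hσ : ∀ (j : ℕ) (v : C), ((σ^[j] v : C) : V) = (FreeGroup.mk tw ^ j)⁻¹ • (v : V) := by
    intro j
    induction j with
    | zero => intro v; simp
    | succ j ih =>
      intro v
      rw [Function.iterate_succ_apply, ih, pow_succ', mul_inv_rev, mul_smul]
      rfl
  obtain ⟨R, hRcard, hR⟩ := exists_orbit_reps σ N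
    (fun v => Subtype.ext (by rw [hσ]; exact hG.per v.1 v.2))
    (fun v j hj hjN h => hord v.1 (hG.base v.1 v.2) j hj hjN (by
      have := congrArg Subtype.val h
      rwa [hσ] at this))
  rw [Fintype.card_coe] at hRcard
  -- rank inequality
  let VK : Finset V := insert v₀ (E.image Prod.snd ∪ E.image tgt)
  let VD : Finset V := insert v₀ ((EDof v₀ us).image Prod.snd ∪ (EDof v₀ us).image tgt)
  have hrank := rank_inequality (K := Fin r ⊕ R) E VK v₀ (Finset.mem_insert_self _ _)
    (fun e he => Finset.mem_insert_of_mem (Finset.mem_union_left _ (Finset.mem_image_of_mem _ he)))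
    (fun e he => Finset.mem_insert_of_mem (Finset.mem_union_right _ (Finset.mem_image_of_mem _ he)))
    (by
      intro v hv
      rcases Finset.mem_insert.1 hv with rfl | hv
      · exact ⟨1, Conn.refl _ _⟩
      rcases Finset.mem_union.1 hv with hv | hv
      · obtain ⟨e, he, rfl⟩ := Finset.mem_image.1 hv
        exact hreachE e he
      · obtain ⟨e, he, rfl⟩ := Finset.mem_image.1 hv
        obtain ⟨g, hg⟩ := hreachE e he
        refine ⟨g * FreeGroup.mk [(e.1, true)], hg.trans ?_⟩
        refine Conn.of_edge (x := (e.1, true)) ?_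
        rw [edge_true]
        exact he)
    (Sum.elim (fun _ => v₀) (fun o => ((o : C) : V)))
    (Sum.elim us (fun _ => rep N tw))
    (by
      rintro (j | o)
      · exact (isPath_EDof v₀ us j).mono hG.sub
      · exact isPath_rep hG.cyc hG.path N o.1.2)
    (by
      rintro (j | o)
      · exact hus j
      · change (FreeGroup.mk (rep N tw))⁻¹ • ((o : C) : V) = ((o : C) : V)
        rw [mk_rep]
        exact hG.per _ o.1.2)
    (by
      refine hG.gen.trans (sup_le ?_ ?_)
      · rw [hFDdef, Subgroup.closure_le]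
        rintro _ ⟨j, rfl⟩
        exact Subgroup.subset_closure ⟨1, Sum.inl j, Conn.refl _ _, by simp⟩
      · refine (Subgroup.closure_le _).2 ?_
        rintro _ ⟨x, v, hv, hx, rfl⟩
        obtain ⟨o, ho, j, hj⟩ := hR ⟨v, hv⟩
        have hj' := congrArg Subtype.val hj
        rw [hσ] at hj'
        simp only at hj'
        have hpath : Conn (E : Set (A × V)) (o : V) (FreeGroup.mk tw ^ j) v :=
          ⟨rep j tw, mk_rep j tw, isPath_rep hG.cyc hG.path j o.2, by rw [endp, mk_rep]; exact hj'⟩
        refine Subgroup.subset_closure ⟨x * (FreeGroup.mk tw ^ j)⁻¹, Sum.inr ⟨o, ho⟩,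
          hx.trans hpath.symm, ?_⟩
        simp only [Sum.elim_inr, mk_rep]
        group)
  rw [Fintype.card_sum, Fintype.card_fin, Fintype.card_coe] at hrank
  -- vertices
  have hVK : VK ⊆ P ∪ VD := by
    intro v hv
    rw [Finset.mem_union]
    rcases Finset.mem_insert.1 hv with rfl | hv
    · exact Or.inr (Finset.mem_insert_self _ _)
    have key : ∀ e ∈ E, e ∈ EDof v₀ us ∨ e ∈ I := by
      intro e he
      by_cases heD : e ∈ EDof v₀ us
      · exact Or.inl heD
      · refine Or.inr ?_
        by_contra h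
        have := hcov e he heD
        rw [hI' e h] at this
        omega
    rcases Finset.mem_union.1 hv with hv | hv
    · obtain ⟨e, he, rfl⟩ := Finset.mem_image.1 hv
      rcases key e he with h | h
      · exact Or.inr (Finset.mem_insert_of_mem
          (Finset.mem_union_left _ (Finset.mem_image_of_mem _ h)))
      · exact Or.inl (hIP e h).1
    · obtain ⟨e, he, rfl⟩ := Finset.mem_image.1 hv
      rcases key e he with h | h
      · exact Or.inr (Finset.mem_insert_of_mem
          (Finset.mem_union_right _ (Finset.mem_image_of_mem _ h)))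
      · exact Or.inl (hIP e h).2
  have hVKc : VK.card ≤ P.card + VD.card :=
    (Finset.card_le_card hVK).trans (Finset.card_union_le _ _)
  have hVDc : VD.card ≤ 1 + 2 * (EDof v₀ us).card := by
    refine (Finset.card_insert_le _ _).trans ?_
    have h1 := Finset.card_union_le ((EDof v₀ us).image Prod.snd) ((EDof v₀ us).image tgt)
    have h2 : ((EDof v₀ us).image Prod.snd).card ≤ (EDof v₀ us).card := Finset.card_image_le
    have h3 : ((EDof v₀ us).image tgt).card ≤ (EDof v₀ us).card := Finset.card_image_le
    omega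
  have hM1 : (I.filter fun e => cov e = 1).card ≤ (EDof v₀ us).card := by
    refine Finset.card_le_card ?_
    intro e he
    rw [Finset.mem_filter] at he
    by_contra heD
    have := hcov e (hIE he.1) heD
    omega
  have hIc := Finset.card_le_card hIE
  have hNR : 2 * R.card ≤ C.card := (Nat.mul_le_mul_right _ hN).trans hRcard
  have hC : C.card ≤ 2 * (r + 1 + 3 * (EDof v₀ us).card) := by omega
  -- double counting
  have hdc : 2 * (E.card - (EDof v₀ us).card) ≤ tw.length * C.card := by
    rw [← hsum]
    have h1 : E \ EDof v₀ us ⊆ I := by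
      intro e he
      rw [Finset.mem_sdiff] at he
      by_contra h
      have := hcov e he.1 he.2
      rw [hI' e h] at this
      omega
    have h2 : ∑ e ∈ E \ EDof v₀ us, 2 ≤ ∑ e ∈ I, cov e :=
      (Finset.sum_le_sum fun e he => hcov e (Finset.mem_sdiff.1 he).1 (Finset.mem_sdiff.1 he).2).trans
        (Finset.sum_le_sum_of_subset h1)
    rw [Finset.sum_const, smul_eq_mul, mul_comm] at h2
    have h3 := Finset.le_card_sdiff (EDof v₀ us) E
    omega
  have hED := card_EDof_le v₀ us
  refine ⟨E, C, hG, ?_⟩
  have h1 : tw.length * C.card ≤ tw.length * (2 * (r + 1 + 3 * ∑ j, (us j).length)) :=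
    Nat.mul_le_mul_left _ (hC.trans (by omega))
  have h2 : 2 * (E.card - (EDof v₀ us).card) ≤
      2 * (tw.length * (r + 1 + 3 * ∑ j, (us j).length)) := by
    calc _ ≤ _ := hdc.trans h1
      _ = _ := by ring
  omega

end

end IM
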