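import Mathlib
import Pool.Agent.Helper23.IM.Path
import Pool.Agent.Helper23.IM.Defs
import Pool.Agent.Helper23.IM.Retract
import Pool.Agent.Helper23.IM.Min
import Pool.Agent.Helper67.IM.GR
import Pool.Agent.Helper28.IM.FP

namespace IM

open FreeGroup

variable {A : Type*}

theorem mem_closure_image_finset {ι G : Type*} [Group G] {S : Set ι} {f : ι → G} {g : G}
    (hg : g ∈ Subgroup.closure {y | ∃ x ∈ S, y = f x}) :
    ∃ s : Finset ι, (s : Set ι) ⊆ S ∧ g ∈ Subgroup.closure {y | ∃ x ∈ (s : Set ι), y = f x} := by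
  classical
  induction hg using Subgroup.closure_induction with
  | mem y hy =>
    obtain ⟨x, hx, rfl⟩ := hy
    exact ⟨{x}, by simpa using hx, Subgroup.subset_closure ⟨x, by simp, rfl⟩⟩
  | one => exact ⟨∅, by simp, Subgroup.one_mem _⟩
  | mul a b _ _ iha ihb =>
    obtain ⟨s, hs, hsa⟩ := iha
    obtain ⟨s', hs', hsb⟩ := ihb
    refine ⟨s ∪ s', by simp [hs, hs'], Subgroup.mul_mem _ ?_ ?_⟩
    · exact Subgroup.closure_mono (by rintro _ ⟨x, hx, rfl⟩; exact ⟨x, by simp_all, rfl⟩) hsa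
    · exact Subgroup.closure_mono (by rintro _ ⟨x, hx, rfl⟩; exact ⟨x, by simp_all, rfl⟩) hsb
  | inv a _ iha =>
    obtain ⟨s, hs, hsa⟩ := iha
    exact ⟨s, hs, Subgroup.inv_mem _ hsa⟩

theorem rep_add (j k : ℕ) (tw : List (A × Bool)) : rep (j + k) tw = rep j tw ++ rep k tw := by
  induction j with
  | zero => simp
  | succ j ih =>
    rw [show j + 1 + k = (j + k) + 1 by omega, rep_succ, rep_succ, List.append_assoc, ← ih]

theorem length_rep (N : ℕ) (tw : List (A × Bool)) : (rep N tw).length = N * tw.length := by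
  simp [rep]

section

variable (Y : Subgroup (FreeGroup A)) (S : Set (FreeGroup A)) (τ : FreeGroup A) (N : ℕ)

/-- The normal subgroup of relations. -/
def NN (S : Set (FreeGroup A)) (τ : FreeGroup A) (N : ℕ) : Subgroup (FreeGroup A) :=
  Subgroup.closure {y | ∃ x ∈ S, y = x * τ ^ N * x⁻¹}

variable {Y S τ N}

theorem NN_le (hN : ∀ x ∈ S, x * τ ^ N * x⁻¹ ∈ Y) : NN S τ N ≤ Y := by
  refine (Subgroup.closure_le _).2 ?_
  rintro _ ⟨x, hx, rfl⟩
  exact hN x hx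

theorem NN_conj (hYS : ∀ y ∈ Y, ∀ x ∈ S, y * x ∈ S) {y n : FreeGroup A} (hy : y ∈ Y)
    (hn : n ∈ NN S τ N) : y * n * y⁻¹ ∈ NN S τ N := by
  induction hn using Subgroup.closure_induction with
  | mem z hz =>
    obtain ⟨x, hx, rfl⟩ := hz
    refine Subgroup.subset_closure ⟨y * x, hYS y hy x hx, ?_⟩
    group
  | one => simp
  | mul a b _ _ iha ihb =>
    have : y * (a * b) * y⁻¹ = y * a * y⁻¹ * (y * b * y⁻¹) := by group
    rw [this]
    exact Subgroup.mul_mem _ iha ihb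
  | inv a _ iha =>
    have : y * a⁻¹ * y⁻¹ = (y * a * y⁻¹)⁻¹ := by group
    rw [this]
    exact Subgroup.inv_mem _ iha

/-- decomposition modulo `NN` -/
theorem exists_mod {H : Subgroup (FreeGroup A)} {W : Subgroup (FreeGroup A)}
    {K : Subgroup (FreeGroup A)} (hK : ∀ y ∈ H, ∀ n ∈ K, y * n * y⁻¹ ∈ K)
    (hWH : W ≤ H) (s : Set (FreeGroup A)) (hs : s ⊆ H) (hH : H ≤ W ⊔ Subgroup.closure s)
    (hsW : ∀ g ∈ s, ∃ δ ∈ W, g * δ⁻¹ ∈ K) {g : FreeGroup A} (hg : g ∈ H) :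
    ∃ δ ∈ W, g * δ⁻¹ ∈ K := by
  let Q : Subgroup (FreeGroup A) :=
    { carrier := {g | g ∈ H ∧ ∃ δ ∈ W, g * δ⁻¹ ∈ K}
      mul_mem' := by
        rintro a b ⟨ha, δ, hδ, h1⟩ ⟨hb, ε, hε, h2⟩
        refine ⟨H.mul_mem ha hb, δ * ε, W.mul_mem hδ hε, ?_⟩
        have : a * b * (δ * ε)⁻¹ = (a * (b * ε⁻¹) * a⁻¹) * (a * δ⁻¹) := by group
        rw [this]
        exact K.mul_mem (hK a ha _ h2) h1
      one_mem' := ⟨H.one_mem, 1, W.one_mem, by simp [K.one_mem]⟩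
      inv_mem' := by
        rintro a ⟨ha, δ, hδ, h1⟩
        refine ⟨H.inv_mem ha, δ⁻¹, W.inv_mem hδ, ?_⟩
        have : a⁻¹ * δ⁻¹⁻¹ = a⁻¹ * (a * δ⁻¹)⁻¹ * a⁻¹⁻¹ := by group
        rw [this]
        exact hK _ (H.inv_mem ha) _ (K.inv_mem h1) }
  have hQ : W ⊔ Subgroup.closure s ≤ Q := by
    refine sup_le ?_ ?_
    · intro g hg
      exact ⟨hWH hg, g, hg, by simp [K.one_mem]⟩
    · rw [Subgroup.closure_le]
      intro g hg
      exact ⟨hs hg, hsW g hg⟩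
  exact (hQ (hH hg)).2

end

/-- The finite complexes exist for any finite set of relations. -/
theorem exists_good {tw : List (A × Bool)} {N : ℕ} (hN : 0 < N) {S : Set (FreeGroup A)}
    (hSt : ∀ x ∈ S, x * FreeGroup.mk tw ∈ S)
    {r : ℕ} (us : Fin r → List (A × Bool))
    (s : Finset (FreeGroup A)) (hs : (s : Set (FreeGroup A)) ⊆ S) {δ : FreeGroup A}
    (hδ : δ ∈ Subgroup.closure
      {y | ∃ x ∈ (s : Set (FreeGroup A)), y = x * FreeGroup.mk tw ^ N * x⁻¹})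
    (J : Subgroup (FreeGroup A))
    (hJ : J = Subgroup.closure (Set.range fun j => FreeGroup.mk (us j)) ⊔ Subgroup.closure
      {y | ∃ x ∈ (s : Set (FreeGroup A)), y = x * FreeGroup.mk tw ^ N * x⁻¹}) :
    ∃ (E : Finset (A × (FreeGroup A ⧸ J))) (C : Finset (FreeGroup A ⧸ J)),
      Good ((1 : FreeGroup A) : FreeGroup A ⧸ J) tw N S
        (EDof ((1 : FreeGroup A) : FreeGroup A ⧸ J) us)
        (Subgroup.closure (Set.range fun j => FreeGroup.mk (us j))) {δ} E C := by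
  classical
  set τ : FreeGroup A := FreeGroup.mk tw with hτ
  set v₀ : FreeGroup A ⧸ J := ((1 : FreeGroup A) : FreeGroup A ⧸ J) with hv₀
  have hstab : ∀ g : FreeGroup A, g⁻¹ • v₀ = v₀ ↔ g ∈ J := by
    intro g
    rw [hv₀, MulAction.Quotient.smul_coe, smul_eq_mul, mul_one, QuotientGroup.eq]
    simp
  let C : Finset (FreeGroup A ⧸ J) :=
    (s ×ˢ Finset.range N).image fun p => (p.1 * τ ^ p.2)⁻¹ • v₀
  let E : Finset (A × (FreeGroup A ⧸ J)) :=
    EDof v₀ us ∪ s.biUnion fun x => (edgeList v₀ (Quot.out x ++ rep N tw)).toFinset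
  have hEx : ∀ x ∈ s, IsPath (E : Set _) v₀ (Quot.out x ++ rep N tw) := by
    intro x hx
    rw [isPath_iff_edgeList]
    intro e he
    refine Finset.mem_coe.2 (Finset.mem_union_right _ (Finset.mem_biUnion.2 ⟨x, hx, ?_⟩))
    exact List.mem_toFinset.2 he
  have hxJ : ∀ x ∈ s, x * τ ^ N * x⁻¹ ∈ J := by
    intro x hx
    rw [hJ]
    exact Subgroup.mem_sup_right (Subgroup.subset_closure ⟨x, hx, rfl⟩)
  have hout : ∀ x : FreeGroup A, endp v₀ (Quot.out x) = x⁻¹ • v₀ := by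
    intro x
    rw [endp, mk_out]
  have hperx : ∀ x ∈ s, (x * τ ^ N)⁻¹ • v₀ = x⁻¹ • v₀ := by
    intro x hx
    have : (x * τ ^ N)⁻¹ = x⁻¹ * (x * τ ^ N * x⁻¹)⁻¹ := by group
    rw [this, mul_smul, (hstab _).2 (hxJ x hx)]
  have hCx : ∀ x ∈ s, x⁻¹ • v₀ ∈ (C : Set _) := by
    intro x hx
    refine Finset.mem_coe.2 (Finset.mem_image.2 ⟨(x, 0), ?_, by simp⟩)
    simp [hx, hN]
  have hle : Subgroup.closure {y | ∃ x ∈ (s : Set (FreeGroup A)), y = x * τ ^ N * x⁻¹} ≤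
      NK τ N v₀ (E : Set _) (C : Set _) := by
    refine (Subgroup.closure_le _).2 ?_
    rintro _ ⟨x, hx, rfl⟩
    refine Subgroup.subset_closure ⟨x, x⁻¹ • v₀, hCx x hx, ?_, rfl⟩
    exact ⟨Quot.out x, mk_out x, ((isPath_append _ _ _ _).1 (hEx x hx)).1, hout x⟩
  refine ⟨E, C, ?_, ?_, ?_, ?_, ?_, ?_, ?_⟩
  · exact_mod_cast Finset.subset_union_left
  · intro v hv
    obtain ⟨⟨x, j⟩, hx, rfl⟩ := Finset.mem_image.1 (Finset.mem_coe.1 hv)
    rw [Finset.mem_product, Finset.mem_range] at hx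
    obtain ⟨hx, hj⟩ := hx
    simp only at hx hj ⊢
    have h1 : endp ((x * τ ^ j)⁻¹ • v₀) tw = (x * τ ^ (j + 1))⁻¹ • v₀ := by
      rw [endp, ← mul_smul, ← hτ]
      congr 1
      group
    rw [h1]
    by_cases hjN : j + 1 = N
    · rw [hjN, hperx x hx]
      exact hCx x hx
    · refine Finset.mem_coe.2 (Finset.mem_image.2 ⟨(x, j + 1), ?_, rfl⟩)
      rw [Finset.mem_product, Finset.mem_range]
      exact ⟨hx, by simp only; omega⟩
  · intro v hv
    obtain ⟨⟨x, j⟩, hx, rfl⟩ := Finset.mem_image.1 (Finset.mem_coe.1 hv)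
    rw [Finset.mem_product, Finset.mem_range] at hx
    obtain ⟨hx, hj⟩ := hx
    simp only at hx hj ⊢
    have h1 := hEx x hx
    have h2 : rep N tw = rep j tw ++ (tw ++ rep (N - j - 1) tw) := by
      rw [← rep_succ, ← rep_add]
      congr 1
      omega
    rw [h2, isPath_append, isPath_append, isPath_append, hout, endp, mk_rep, ← mul_smul,
      ← mul_inv_rev] at h1
    exact h1.2.2.1
  · intro v hv
    obtain ⟨⟨x, j⟩, hx, rfl⟩ := Finset.mem_image.1 (Finset.mem_coe.1 hv)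
    rw [Finset.mem_product, Finset.mem_range] at hx
    refine ⟨x * τ ^ j, ?_, rfl⟩
    have : ∀ j : ℕ, x * τ ^ j ∈ S := by
      intro j
      induction j with
      | zero => simpa using hs hx.1
      | succ j ih => rw [pow_succ, ← mul_assoc]; exact hSt _ ih
    exact this j
  · intro v hv
    obtain ⟨⟨x, j⟩, hx, rfl⟩ := Finset.mem_image.1 (Finset.mem_coe.1 hv)
    rw [Finset.mem_product, Finset.mem_range] at hx
    simp only
    have : (τ ^ N)⁻¹ * (x * τ ^ j)⁻¹ = (x * τ ^ j)⁻¹ * (x * τ ^ N * x⁻¹)⁻¹ := by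
      have h1 : (τ ^ N)⁻¹ * (τ ^ j)⁻¹ = (τ ^ j)⁻¹ * (τ ^ N)⁻¹ := by
        rw [← mul_inv_rev, ← mul_inv_rev, ← pow_add, ← pow_add, add_comm]
      simp only [mul_inv_rev, inv_inv]
      rw [← mul_assoc, h1]
      group
    rw [← mul_smul, this, mul_smul, (hstab _).2 (hxJ x hx.1)]
  · intro g hg
    have h1 : g ∈ J := (hstab g).1 hg.eq
    rw [hJ] at h1
    exact (sup_le_sup_left hle _ : _) h1
  · rintro _ rfl
    exact hle hδ

theorem delta_mem {tw : List (A × Bool)} (hne : tw ≠ [])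
    (hred : FreeGroup.IsCyclicallyReduced tw)
    (hper : ∀ k, 0 < k → k < tw.length → tw.rotate k ≠ tw)
    {N : ℕ} (hN : 2 ≤ N) {Y : Subgroup (FreeGroup A)} {S : Set (FreeGroup A)}
    (hYS : ∀ y ∈ Y, ∀ x ∈ S, y * x ∈ S)
    (hSt : ∀ x ∈ S, x * FreeGroup.mk tw ∈ S)
    (hNY : ∀ x ∈ S, x * FreeGroup.mk tw ^ N * x⁻¹ ∈ Y)
    (hord : ∀ x ∈ S, ∀ j, 0 < j → j < N → x * FreeGroup.mk tw ^ j * x⁻¹ ∉ Y)
    {r : ℕ} (us : Fin r → List (A × Bool)) (hus : ∀ j, FreeGroup.mk (us j) ∈ Y)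
    {B : ℕ} (hB : B = (∑ j, (us j).length) + tw.length * (r + 1 + 3 * ∑ j, (us j).length))
    {δ : FreeGroup A} (hδ : δ ∈ Subgroup.closure (Set.range fun j => FreeGroup.mk (us j)))
    (hδ' : δ ∈ NN S (FreeGroup.mk tw) N)
    (J' K : Subgroup (FreeGroup A)) (hJY : J' ≤ Y)
    (hJ' : ∀ g ∈ Y, (∃ w : List (A × Bool), FreeGroup.mk w = g ∧ w.length ≤ 4 * B + 1) → g ∈ J')
    (hK : ∀ j ∈ J', ∀ n ∈ K, j * n * j⁻¹ ∈ K)
    (hR : ∀ x ∈ S, (∃ w : List (A × Bool), FreeGroup.mk w = x ∧ w.length ≤ 2 * B) →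
      x * FreeGroup.mk tw ^ N * x⁻¹ ∈ K) : δ ∈ K := by
  obtain ⟨s, hs, hδs⟩ := mem_closure_image_finset hδ'
  obtain ⟨J, hJ⟩ : ∃ J : Subgroup (FreeGroup A),
    J = Subgroup.closure (Set.range fun j => FreeGroup.mk (us j)) ⊔ Subgroup.closure
      {y | ∃ x ∈ (s : Set (FreeGroup A)), y = x * FreeGroup.mk tw ^ N * x⁻¹} := ⟨_, rfl⟩
  obtain ⟨E₀, C₀, h₀⟩ := exists_good (by omega : 0 < N) hSt us s hs hδs J hJ
  have hJleY : J ≤ Y := by
    rw [hJ]
    refine sup_le ?_ ?_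
    · rw [Subgroup.closure_le]
      rintro _ ⟨j, rfl⟩
      exact hus j
    · rw [Subgroup.closure_le]
      rintro _ ⟨x, hx, rfl⟩
      exact hNY x (hs hx)
  set v₀ : FreeGroup A ⧸ J := ((1 : FreeGroup A) : FreeGroup A ⧸ J) with hv₀
  have hstab : ∀ g : FreeGroup A, g⁻¹ • v₀ = v₀ ↔ g ∈ J := by
    intro g
    rw [hv₀, MulAction.Quotient.smul_coe, smul_eq_mul, mul_one, QuotientGroup.eq]
    simp
  obtain ⟨E, C, hG, hE⟩ := exists_small hne hred hper hN us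
    (fun j => (hstab _).2 (by
      rw [hJ]
      exact Subgroup.mem_sup_left (Subgroup.subset_closure ⟨j, rfl⟩)))
    (T := {δ}) (by rintro _ rfl; exact hδ)
    (by
      rintro v ⟨x, hx, rfl⟩ j hj hjN h
      refine hord x hx j hj hjN (hJleY ((hstab _).1 ?_))
      have h1 : (x * FreeGroup.mk tw ^ j * x⁻¹)⁻¹ = x * ((FreeGroup.mk tw ^ j)⁻¹ * x⁻¹) := by
        group
      rw [h1, mul_smul, mul_smul, h, smul_inv_smul])
    E₀ C₀ h₀
  rw [← hB] at hE
  have hkill := hG.kill rfl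
  refine (Subgroup.closure_le K).2 ?_ hkill
  rintro _ ⟨x, v, hv, hx, rfl⟩
  obtain ⟨u, rfl, hu, rfl⟩ := hx
  obtain ⟨u', hu', hend, hlen, hcl⟩ := short_generators E v₀ u hu
  have hf : FreeGroup.mk u * (FreeGroup.mk u')⁻¹ ∈ J' := by
    refine (Subgroup.closure_le _).2 ?_ hcl
    rintro _ ⟨w, rfl, hw, hw', hwl⟩
    refine hJ' _ (hJleY ((hstab _).1 hw')) ⟨w, rfl, by omega⟩
  obtain ⟨x₁, hx₁, hx₁'⟩ := hG.base _ hv
  have hxS : FreeGroup.mk u ∈ S := by
    have h1 : FreeGroup.mk u * x₁⁻¹ ∈ J := by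
      rw [← hstab, mul_inv_rev, inv_inv, mul_smul]
      have h2 : (FreeGroup.mk u)⁻¹ • v₀ = x₁⁻¹ • v₀ := hx₁'.symm
      rw [h2, smul_inv_smul]
    have h2 := hYS _ (hJleY h1) x₁ hx₁
    rwa [inv_mul_cancel_right] at h2
  have hx'S : FreeGroup.mk u' ∈ S := by
    have h2 := hYS _ (Y.inv_mem (hJY hf)) _ hxS
    have h3 : (FreeGroup.mk u * (FreeGroup.mk u')⁻¹)⁻¹ * FreeGroup.mk u = FreeGroup.mk u' := by
      group
    rwa [h3] at h2
  have h3 := hK _ hf _ (hR _ hx'S ⟨u', rfl, by omega⟩)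
  have h4 : FreeGroup.mk u * FreeGroup.mk tw ^ N * (FreeGroup.mk u)⁻¹ =
      FreeGroup.mk u * (FreeGroup.mk u')⁻¹ *
        (FreeGroup.mk u' * FreeGroup.mk tw ^ N * (FreeGroup.mk u')⁻¹) *
        (FreeGroup.mk u * (FreeGroup.mk u')⁻¹)⁻¹ := by group
  rw [SetLike.mem_coe, h4]
  exact h3

theorem finite_short [Finite A] (n : ℕ) :
    {g : FreeGroup A | ∃ w : List (A × Bool), FreeGroup.mk w = g ∧ w.length ≤ n}.Finite := by
  refine ((List.finite_length_le (A × Bool) n).image FreeGroup.mk).subset ?_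
  rintro g ⟨w, rfl, hw⟩
  exact ⟨w, hw, rfl⟩

/-- **Coherence theorem**. -/
theorem fp_quotient [Finite A] {tw : List (A × Bool)} (hne : tw ≠ [])
    (hred : FreeGroup.IsCyclicallyReduced tw)
    (hper : ∀ k, 0 < k → k < tw.length → tw.rotate k ≠ tw)
    {N : ℕ} (hN : 2 ≤ N) {Y : Subgroup (FreeGroup A)} {S : Set (FreeGroup A)}
    (hYS : ∀ y ∈ Y, ∀ x ∈ S, y * x ∈ S)
    (hSt : ∀ x ∈ S, x * FreeGroup.mk tw ∈ S)
    (hNY : ∀ x ∈ S, x * FreeGroup.mk tw ^ N * x⁻¹ ∈ Y)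
    (hord : ∀ x ∈ S, ∀ j, 0 < j → j < N → x * FreeGroup.mk tw ^ j * x⁻¹ ∉ Y)
    {r : ℕ} (us : Fin r → List (A × Bool)) (hus : ∀ j, FreeGroup.mk (us j) ∈ Y)
    (hY : Y ≤ Subgroup.closure (Set.range fun j => FreeGroup.mk (us j)) ⊔
      NN S (FreeGroup.mk tw) N)
    {G : Type*} [Group G] (ψ : Y →* G) (hψ : Function.Surjective ψ)
    (hker : ∀ y : Y, ψ y = 1 ↔ (y : FreeGroup A) ∈ NN S (FreeGroup.mk tw) N) :
    Group.IsFinitelyPresented G := by
  classical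
  set τ : FreeGroup A := FreeGroup.mk tw with hτ
  set FD : Subgroup (FreeGroup A) := Subgroup.closure (Set.range fun j => FreeGroup.mk (us j))
    with hFD
  have hFDY : FD ≤ Y := by
    rw [hFD, Subgroup.closure_le]
    rintro _ ⟨j, rfl⟩
    exact hus j
  obtain ⟨B, hB⟩ : ∃ B, B = (∑ j, (us j).length) +
    tw.length * (r + 1 + 3 * ∑ j, (us j).length) := ⟨_, rfl⟩
  -- decomposition modulo NN
  have hmod : ∀ g ∈ Y, ∃ δ ∈ FD, g * δ⁻¹ ∈ NN S τ N := by
    intro g hg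
    refine exists_mod (H := Y) (fun y hy n hn => NN_conj hYS hy hn) hFDY (NN S τ N)
      (NN_le hNY) ?_ ?_ hg
    · rw [Subgroup.closure_eq]; exact hY
    · intro g hg
      exact ⟨1, FD.one_mem, by simpa using hg⟩
  choose! dl hdl hdl' using hmod
  -- short elements
  let SG : Set (FreeGroup A) := {g | g ∈ Y ∧
    ∃ w : List (A × Bool), FreeGroup.mk w = g ∧ w.length ≤ 4 * B + 1 + N * tw.length}
  have hSGfin : SG.Finite := (finite_short _).subset fun g hg => hg.2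
  let J' : Subgroup (FreeGroup A) := FD ⊔ Subgroup.closure SG
  have hJY : J' ≤ Y := sup_le hFDY ((Subgroup.closure_le _).2 fun g hg => hg.1)
  have hJfg : J'.FG := by
    refine Subgroup.FG.sup ?_ ?_
    · exact (Subgroup.fg_iff _).2 ⟨_, rfl, Set.finite_range _⟩
    · exact (Subgroup.fg_iff _).2 ⟨_, rfl, hSGfin⟩
  -- relators
  let R : Set (FreeGroup A) :=
    {g | g ∈ SG ∧ g ∈ NN S τ N} ∪ ((fun g => g * (dl g)⁻¹) '' SG)
  have hRfin : R.Finite := (hSGfin.subset fun g hg => hg.1).union (hSGfin.image _)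
  have hRN : R ⊆ NN S τ N := by
    rintro g (hg | ⟨g, hg, rfl⟩)
    · exact hg.2
    · exact hdl' g hg.1
  have hSGJ : ∀ g ∈ SG, g ∈ J' := fun g hg => Subgroup.mem_sup_right (Subgroup.subset_closure hg)
  have hRJ : R ⊆ J' := by
    rintro g (hg | ⟨g, hg, rfl⟩)
    · exact hSGJ g hg.1
    · exact J'.mul_mem (hSGJ g hg) (J'.inv_mem (Subgroup.mem_sup_left (hdl g hg.1)))
  let R' : Set J' := {j | (j : FreeGroup A) ∈ R}
  have hR'fin : R'.Finite := hRfin.preimage Subtype.val_injective.injOn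
  let K : Subgroup (FreeGroup A) := (Subgroup.normalClosure R').map J'.subtype
  have hRK : ∀ g ∈ R, g ∈ K := by
    intro g hg
    exact ⟨⟨g, hRJ hg⟩, Subgroup.subset_normalClosure hg, rfl⟩
  have hKconj : ∀ j ∈ J', ∀ n ∈ K, j * n * j⁻¹ ∈ K := by
    rintro j hj _ ⟨n, hn, rfl⟩
    exact ⟨⟨j, hj⟩ * n * ⟨j, hj⟩⁻¹, Subgroup.normalClosure_normal.conj_mem n hn ⟨j, hj⟩, rfl⟩
  -- the quotient map on `J'`
  let f : J' →* G := ψ.comp (Subgroup.inclusion hJY)
  have : Group.IsFinitelyPresented J' := fp_of_fg_subgroup_free J' hJfg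
  refine Group.IsFinitelyPresented.of_surjective f ?_ ⟨R', hR'fin, ?_⟩
  · intro x
    obtain ⟨y, rfl⟩ := hψ x
    have h1 := hdl' y y.2
    have h2 := hdl y y.2
    refine ⟨⟨dl y, Subgroup.mem_sup_left h2⟩, ?_⟩
    have h3 : ψ (y * (⟨dl y, hFDY h2⟩ : Y)⁻¹) = 1 := (hker _).2 h1
    rw [MonoidHom.map_mul, MonoidHom.map_inv, mul_inv_eq_one] at h3
    exact h3.symm
  · apply le_antisymm
    · refine Subgroup.normalClosure_le_normal ?_
      intro j hj
      exact (hker _).2 (hRN hj)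
    · intro j hj
      have hjN : (j : FreeGroup A) ∈ NN S τ N := (hker _).1 hj
      obtain ⟨δ, hδ, hδK⟩ := exists_mod (H := J') hKconj le_sup_left SG hSGJ le_rfl
        (fun g hg => ⟨dl g, hdl g hg.1, hRK _ (Or.inr ⟨g, hg, rfl⟩)⟩) j.2
      have hKN : K ≤ NN S τ N := by
        rintro _ ⟨n, hn, rfl⟩
        have : Subgroup.normalClosure R' ≤ f.ker := by
          refine Subgroup.normalClosure_le_normal ?_
          intro j hj
          exact (hker _).2 (hRN hj)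
        exact (hker _).1 (this hn)
      have hδN : δ ∈ NN S τ N := by
        have h1 := (NN S τ N).mul_mem ((NN S τ N).inv_mem (hKN hδK)) hjN
        simpa using h1
      have hδK' : δ ∈ K := by
        refine delta_mem hne hred hper hN hYS hSt hNY hord us hus hB hδ hδN J' K hJY ?_ hKconj ?_
        · rintro g hg ⟨w, rfl, hw⟩
          exact hSGJ _ ⟨hg, w, rfl, by omega⟩
        · rintro x hx ⟨w, rfl, hw⟩
          refine hRK _ (Or.inl ⟨⟨hNY _ hx, w ++ rep N tw ++ FreeGroup.invRev w, ?_, ?_⟩,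
            Subgroup.subset_closure ⟨_, hx, rfl⟩⟩)
          · rw [← FreeGroup.mul_mk, ← FreeGroup.mul_mk, mk_rep, ← FreeGroup.inv_mk]
          · rw [List.length_append, List.length_append, FreeGroup.invRev_length, length_rep]
            omega
      have hjK : (j : FreeGroup A) ∈ K := by
        have := K.mul_mem hδK hδK'
        simpa using this
      obtain ⟨n, hn, hnj⟩ := hjK
      have : n = j := Subtype.ext hnj
      rwa [this] at hn

end IM
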