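import Mathlib
import Pool.Agent.Helper23.IM.Path
import Pool.Agent.Helper23.IM.Defs
import Pool.Agent.Helper23.IM.Retract
import Pool.Agent.Helper23.IM.Min
import Pool.Agent.Helper23.IM.TheoremC
import Pool.Agent.Helper23.IM.Root
import Pool.Agent.Helper65.IM.EO
import Pool.Agent.Helper97.IM.M1
import Pool.Agent.Helper52.IM.UnitsDesc

namespace IM

open FreeGroup

variable {A : Type*}

theorem cls_append' (w u v : List (A × Bool)) : cls w (u ++ v) = cls w u * cls w v := rfl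

theorem units_fp_of_ne_one [Finite A] (w : List (A × Bool))
    (hw : (FreeGroup.mk w : FreeGroup A) ≠ 1)
    (hpow : ∃ (v : FreeGroup A) (k : ℕ), 2 ≤ k ∧ FreeGroup.mk w = v ^ k) :
    Group.IsFinitelyPresented (OneRelInverseMonoid w)ˣ := by
  classical
  obtain ⟨y, tw, N, hN, hg, hne, hred, hper⟩ := exists_root (FreeGroup.mk w) hw hpow
  set τ : FreeGroup A := FreeGroup.mk tw with hτ
  have hτ1 : τ ≠ 1 := by
    intro h
    rw [h, one_pow, mul_one, mul_inv_cancel] at hg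
    exact hw hg
  obtain ⟨Q, _, _, φ, hφ⟩ := exists_exact_order τ hτ1 N (by omega)
  have hφw : φ (FreeGroup.mk w) = 1 := by
    rw [hg, MonoidHom.map_mul, MonoidHom.map_mul, MonoidHom.map_pow, ← hφ, pow_orderOf_eq_one,
      mul_one, ← MonoidHom.map_mul, mul_inv_cancel, MonoidHom.map_one]
  obtain ⟨Φ, hΦ⟩ := exists_hom w φ hφw
  let U₀ : Subgroup (OneRelInverseMonoid w)ˣ := (Units.map Φ).ker
  have hfg : Group.FG (OneRelInverseMonoid w)ˣ := units_fg w
  have hfin : U₀.FiniteIndex := Subgroup.finiteIndex_ker _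
  have hfg₀ : Group.FG U₀ := Subgroup.fg_of_index_ne_zero U₀
  obtain ⟨Y, ψ, hψ, hY, -, hker, hNY⟩ := units_desc w U₀
  refine fp_of_finiteIndex U₀ ?_
  -- generators
  obtain ⟨Z, hZ⟩ := (Group.fg_def).1 hfg₀
  choose ys hys using hψ
  let us : Fin Z.card → List (A × Bool) := fun j =>
    Quot.out ((ys (Z.equivFin.symm j) : Y) : FreeGroup A)
  have hus : ∀ j, FreeGroup.mk (us j) = ((ys (Z.equivFin.symm j) : Y) : FreeGroup A) :=
    fun j => mk_out _
  let S : Set (FreeGroup A) := {x | ∃ p ∈ RU w, ∃ j : ℕ, x = FreeGroup.mk p * y * τ ^ j}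
  have hconj : ∀ (p : List (A × Bool)) (j : ℕ),
      FreeGroup.mk p * y * τ ^ j * τ ^ N * (FreeGroup.mk p * y * τ ^ j)⁻¹ =
        FreeGroup.mk p * FreeGroup.mk w * (FreeGroup.mk p)⁻¹ := by
    intro p j
    have h1 : τ ^ j * τ ^ N * (τ ^ j)⁻¹ = τ ^ N := by
      rw [← pow_add, add_comm, pow_add, mul_inv_cancel_right]
    calc _ = FreeGroup.mk p * (y * (τ ^ j * τ ^ N * (τ ^ j)⁻¹) * y⁻¹) * (FreeGroup.mk p)⁻¹ := by
          group
      _ = _ := by rw [h1, ← hg]
  have hNN : NN S τ N = Ninf w := by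
    apply le_antisymm
    · refine (Subgroup.closure_le _).2 ?_
      rintro _ ⟨x, ⟨p, hp, j, rfl⟩, rfl⟩
      exact Subgroup.subset_closure ⟨p, hp, hconj p j⟩
    · refine (Subgroup.closure_le _).2 ?_
      rintro _ ⟨p, hp, rfl⟩
      exact Subgroup.subset_closure ⟨_, ⟨p, hp, 0, rfl⟩, (hconj p 0).symm⟩
  refine fp_quotient hne hred hper hN (Y := Y) (S := S) ?_ ?_ ?_ ?_ us ?_ ?_ ψ
    (fun x => ⟨ys x, hys x⟩) ?_
  · rintro g hg' x ⟨p, hp, j, rfl⟩
    obtain ⟨u, x₀, hx₀, rfl, hu⟩ := (hY g).1 hg'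
    obtain ⟨m, hm⟩ := hp
    refine ⟨u ++ p, ⟨m * ((x₀⁻¹ : (OneRelInverseMonoid w)ˣ) : OneRelInverseMonoid w), ?_⟩, j, ?_⟩
    · rw [cls_append', hu, mul_assoc, ← mul_assoc (cls w p), hm, one_mul, Units.mul_inv]
    · rw [← FreeGroup.mul_mk, mul_assoc, mul_assoc, mul_assoc]
  · rintro x ⟨p, hp, j, rfl⟩
    exact ⟨p, hp, j + 1, by rw [pow_succ, ← mul_assoc]⟩
  · rintro x ⟨p, hp, j, rfl⟩
    rw [hconj]
    exact hNY (Subgroup.subset_closure ⟨p, hp, rfl⟩)
  · rintro x - j hj hjN hmem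
    obtain ⟨u, x₀, hx₀, hu, hcl⟩ := (hY _).1 hmem
    have h1 : φ (x * τ ^ j * x⁻¹) = 1 := by
      rw [← hu, ← hΦ, hcl]
      have : Units.map Φ x₀ = 1 := hx₀
      exact congrArg Units.val this
    rw [MonoidHom.map_mul, MonoidHom.map_mul, MonoidHom.map_pow, MonoidHom.map_inv,
      mul_inv_eq_one, mul_eq_left] at h1
    have h2 := orderOf_dvd_of_pow_eq_one h1
    rw [hφ] at h2
    exact absurd (Nat.le_of_dvd hj h2) (by omega)
  · intro j
    rw [hus]
    exact (ys _).2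
  · rw [hNN]
    intro g hg'
    -- the subgroup generated by the lifts of the generators
    let FD' : Subgroup Y := Subgroup.closure (Set.range fun j : Fin Z.card => ys (Z.equivFin.symm j))
    have hmap : FD'.map ψ = ⊤ := by
      rw [MonoidHom.map_closure, eq_top_iff, ← hZ, Subgroup.closure_le]
      intro z hz
      refine Subgroup.subset_closure ⟨ys z, ⟨Z.equivFin ⟨z, hz⟩, by simp⟩, hys z⟩
    have h1 : ψ ⟨g, hg'⟩ ∈ FD'.map ψ := by rw [hmap]; trivial
    obtain ⟨d, hd, hd'⟩ := h1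
    have h2 : (d⁻¹ * ⟨g, hg'⟩ : Y).1 ∈ Ninf w := by
      rw [← hker, MonoidHom.map_mul, MonoidHom.map_inv, hd', inv_mul_cancel]
    have h3 : (d : FreeGroup A) ∈ Subgroup.closure (Set.range fun j => FreeGroup.mk (us j)) := by
      have : FD'.map Y.subtype ≤ Subgroup.closure (Set.range fun j => FreeGroup.mk (us j)) := by
        rw [MonoidHom.map_closure]
        refine Subgroup.closure_mono ?_
        rintro _ ⟨_, ⟨j, rfl⟩, rfl⟩
        exact ⟨j, hus j⟩
      exact this ⟨d, hd, rfl⟩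
    have h4 : g = (d : FreeGroup A) * (d⁻¹ * ⟨g, hg'⟩ : Y).1 := by
      simp
    rw [h4]
    exact Subgroup.mul_mem_sup h3 h2
  · intro y'
    rw [hNN]
    exact hker y'

theorem units_fp_of_eq_one (w : List (A × Bool)) (hw : (FreeGroup.mk w : FreeGroup A) = 1) :
    Group.IsFinitelyPresented (OneRelInverseMonoid w)ˣ := by
  obtain ⟨Y, ψ, hψ, hY, -, hker, hNY⟩ := units_desc w ⊤
  have hN : Ninf w = ⊥ := by
    rw [Ninf, Subgroup.closure_eq_bot_iff]
    rintro _ ⟨p, hp, rfl⟩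
    rw [hw, mul_one, mul_inv_cancel]
    exact Set.mem_singleton _
  have hinj : Function.Injective ψ := by
    rw [injective_iff_map_eq_one]
    intro y hy
    have := (hker y).1 hy
    rw [hN, Subgroup.mem_bot] at this
    exact Subtype.ext this
  let e₁ : Y ≃* (⊤ : Subgroup (OneRelInverseMonoid w)ˣ) := MulEquiv.ofBijective ψ ⟨hinj, hψ⟩
  let e : Y ≃* (OneRelInverseMonoid w)ˣ := e₁.trans Subgroup.topEquiv
  have hfg : Group.FG (OneRelInverseMonoid w)ˣ := units_fg w
  have hYfg : Group.FG Y := Group.fg_of_surjective (f := e.symm.toMonoidHom) e.symm.surjective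
  have := fp_of_fg_subgroup_free Y ((Group.fg_iff_subgroup_fg Y).1 hYfg)
  exact Group.IsFinitelyPresented.equiv e

/-- The group of units of `Inv⟨A | w = 1⟩` is finitely presented as soon as the image of `w` in the
free group is a proper power (possibly trivial). -/
theorem units_fp [Finite A] (w : List (A × Bool)) (v : FreeGroup A) (k : ℕ) (hk : 1 < k)
    (hw : FreeGroup.mk w = v ^ k) : Group.IsFinitelyPresented (OneRelInverseMonoid w)ˣ := by
  by_cases h : (FreeGroup.mk w : FreeGroup A) = 1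
  · exact units_fp_of_eq_one w h
  · exact units_fp_of_ne_one w h ⟨v, k, hk, hw⟩

end IM
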